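import Mathlib
import Pool.Agent.Lib.MP_44a246_ntT.TSetup

/-!
A transcendence basis of a function field containing a given finite family, the dual commuting
derivations, and uniform bounds for the poles.
-/

namespace Pool.Agent.Lib.MP_44a246_ntV

open Pool.Agent.Lib.MP_e52354_nt
open Pool.Agent.Lib.MP_44a246_nt
open Pool.Agent.Lib.MP_44a246_ntL
open Pool.Agent.Lib.MP_44a246_ntT
open WithZero

universe u v

section Basis

variable {k₀ : Type*} {κ : Type u} {K : Type v} [Field k₀] [CharZero k₀] [Field κ] [Field K]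
  [Algebra k₀ κ] [Algebra κ K] [Algebra k₀ K] [IsScalarTower k₀ κ K]

open Classical in
/-- a transcendence basis of a function field containing a given transcendental element, whose
other elements are constants, and the dual derivations, which preserve the field of constants -/
theorem exists_basis_ders' {t : K} (ht : Transcendental κ t)
    (halg : Algebra.IsAlgebraic (IntermediateField.adjoin κ {t}) K) :
    ∃ (ι : Type u) (z : Unit ⊕ ι → K) (E : Unit ⊕ ι → Derivation k₀ K K),
      z (Sum.inl ()) = t ∧ (∀ b, z b = t ∨ ∃ u : κ, z b = algebraMap κ K u) ∧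
      Algebra.IsAlgebraic (IntermediateField.adjoin k₀ (Set.range z)) K ∧
      (∀ b b', E b (z b') = if b = b' then 1 else 0) ∧
      (∀ b, ∀ u : κ, ∃ u' : κ, E b (algebraMap κ K u) = algebraMap κ K u') := by
  obtain ⟨ι, x, hx⟩ := exists_isTranscendenceBasis' k₀ κ
  have hy : IsTranscendenceBasis κ (fun _ : Unit => t) := by
    have h1 : AlgebraicIndependent κ (fun _ : Unit => t) :=
      algebraicIndependent_unique_type_iff.mpr ht
    rw [h1.isTranscendenceBasis_iff_isAlgebraic, ← IntermediateField.isAlgebraic_adjoin_iff_top,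
      Set.range_const]
    exact halg
  set z : Unit ⊕ ι → K := Sum.elim (fun _ => t) (algebraMap κ K ∘ x) with hz
  have hzb : IsTranscendenceBasis k₀ z := hx.sumElim_comp hy
  have hzalg : Algebra.IsAlgebraic (Algebra.adjoin k₀ (Set.range z)) K := hzb.isAlgebraic
  have hxalg : Algebra.IsAlgebraic (Algebra.adjoin k₀ (Set.range x)) κ := hx.isAlgebraic
  have hxalg' : Algebra.IsAlgebraic (IntermediateField.adjoin k₀ (Set.range x)) κ :=
    hx.isAlgebraic_field
  have hzalg' : Algebra.IsAlgebraic (IntermediateField.adjoin k₀ (Set.range z)) K :=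
    hzb.isAlgebraic_field
  choose E hE using fun j : Unit ⊕ ι =>
    exists_derivation hzb.1 (fun i => if i = j then (1 : K) else 0)
  choose e he using fun j : ι =>
    exists_derivation hx.1 (fun i => if i = j then (1 : κ) else 0)
  have hEκ : ∀ j, ∀ u : κ, ∃ u' : κ, E j (algebraMap κ K u) = algebraMap κ K u' := by
    intro j u
    have hu : IsAlgebraic (IntermediateField.adjoin k₀ (Set.range x)) u := hxalg'.isAlgebraic u
    rcases j with j | j
    · refine ⟨0, ?_⟩
      rw [map_zero]
      have h1 := der_eq_zero (V := K) ((E (Sum.inl j)).compAlgebraMap κ) (Set.range x) ?_ hu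
      · exact h1
      · rintro _ ⟨i, rfl⟩
        have h2 := hE (Sum.inl j) (Sum.inr i)
        simpa [hz] using h2
    · refine ⟨e j u, ?_⟩
      have h1 := der_eq_zero (V := K) ((E (Sum.inr j)).compAlgebraMap κ -
        (Algebra.linearMap κ K).compDer (e j)) (Set.range x) ?_ hu
      · rw [Derivation.sub_apply] at h1
        exact sub_eq_zero.mp h1
      · rintro _ ⟨i, rfl⟩
        have h2 := hE (Sum.inr j) (Sum.inr i)
        have h3 := he j i
        rw [Derivation.sub_apply, sub_eq_zero]
        show E (Sum.inr j) (algebraMap κ K (x i)) = algebraMap κ K (e j (x i))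
        rw [h3]
        have h4 : z (Sum.inr i) = algebraMap κ K (x i) := rfl
        rw [← h4, h2]
        by_cases hij : i = j
        · simp [hij]
        · simp [hij]
  refine ⟨ι, z, E, rfl, ?_, hzalg', fun b b' => ?_, hEκ⟩
  · rintro (b | b)
    · exact Or.inl rfl
    · exact Or.inr ⟨x b, rfl⟩
  · rw [hE]
    exact if_congr eq_comm rfl rfl

end Basis

section Exchange

variable {k₀ K : Type*} [Field k₀] [Field K] [CharZero k₀] [Algebra k₀ K]

/-- exchange: commuting derivations dual to a transcendence basis containing a finite family -/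
theorem exists_exchange {β : Type*} [DecidableEq β] {z : β → K} {E : β → Derivation k₀ K K}
    (hzalg : Algebra.IsAlgebraic (IntermediateField.adjoin k₀ (Set.range z)) K)
    (hE : ∀ b b', E b (z b') = if b = b' then 1 else 0)
    {Θ : Type*} [Fintype Θ] [DecidableEq Θ] {c : Θ → K} (hc : AlgebraicIndependent k₀ c) :
    ∃ (T : Set β) (S : Finset β) (D : Θ → Derivation k₀ K K),
      (∀ θ, D θ = ∑ j ∈ S, D θ (z j) • E j) ∧
      (∀ θ θ', D θ (c θ') = if θ = θ' then 1 else 0) ∧
      (∀ θ, ∀ b ∈ T, D θ (z b) = 0) ∧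
      Algebra.IsAlgebraic (IntermediateField.adjoin k₀ (Set.range c ∪ z '' T)) K := by
  classical
  have hcK : CharZero K := charZero_of_injective_algebraMap (algebraMap k₀ K).injective
  -- finitely many of the `z j` suffice
  choose T hT1 hT2 using fun θ : Θ =>
    exists_finset_isAlgebraic (hzalg.isAlgebraic (c θ))
  set U : Finset K := Finset.univ.biUnion T with hU
  have hUz : (U : Set K) ⊆ Set.range z := by simpa [hU] using hT1
  obtain ⟨S, hS⟩ : ∃ S : Finset β, S.image z = U := by
    obtain ⟨S, _, hS⟩ := Finset.subset_set_image_iff.mp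
      (show (U : Set K) ⊆ z '' Set.univ by rwa [Set.image_univ])
    exact ⟨S, hS⟩
  have hUalg : ∀ θ, IsAlgebraic (IntermediateField.adjoin k₀ (U : Set K)) (c θ) := by
    intro θ
    refine isAlgebraic_adjoin_mono ?_ (hT2 θ)
    exact Finset.coe_subset.mpr (Finset.subset_biUnion_of_mem T (Finset.mem_univ θ))
  -- outside `S` the dual derivations vanish on `c`
  have hEc : ∀ j, j ∉ S → ∀ θ, E j (c θ) = 0 := by
    intro j hj θ
    refine der_eq_zero (V := K) (E j) (U : Set K) ?_ (hUalg θ)
    intro y hy
    rw [← hS, Finset.coe_image] at hy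
    obtain ⟨i, hi, rfl⟩ := hy
    rw [hE, if_neg]
    rintro rfl
    exact hj hi
  -- a transcendence basis between `c` and `c ∪ z`
  have hc' : AlgebraicIndepOn k₀ id (Set.range c) := hc.coe_range
  have halg2 : Algebra.IsAlgebraic (Algebra.adjoin k₀ (Set.range c ∪ Set.range z)) K := by
    rw [← IntermediateField.isAlgebraic_adjoin_iff_top]
    constructor
    intro y
    exact isAlgebraic_adjoin_mono Set.subset_union_right (hzalg.isAlgebraic y)
  obtain ⟨s, hs1, hs3, hs2⟩ := exists_isTranscendenceBasis_between (Set.range c)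
    (Set.range c ∪ Set.range z) Set.subset_union_left hc'
  have hsalg₀ : Algebra.IsAlgebraic (Algebra.adjoin k₀ (Set.range ((↑) : s → K))) K :=
    hs2.isAlgebraic
  have hsalg : Algebra.IsAlgebraic
      (IntermediateField.adjoin k₀ (Set.range ((↑) : s → K))) K := hs2.isAlgebraic_field
  -- a derivation vanishing on `s` vanishes
  have hvan : ∀ D : Derivation k₀ K K, (∀ y ∈ s, D y = 0) → ∀ y, D y = 0 := by
    intro D hD y
    refine der_eq_zero (V := K) D (Set.range ((↑) : s → K)) ?_ (hsalg.isAlgebraic y)
    rintro _ ⟨i, rfl⟩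
    exact hD i i.2
  have hzs : ∀ j, j ∉ S → z j ∈ s := by
    intro j hj
    by_contra hcon
    have h1 : E j (z j) = 0 := by
      refine hvan (E j) ?_ (z j)
      intro y hy
      rcases hs3 hy with ⟨θ, rfl⟩ | ⟨i, rfl⟩
      · exact hEc j hj θ
      · rw [hE, if_neg]
        rintro rfl
        exact hcon hy
    rw [hE, if_pos rfl] at h1
    exact one_ne_zero h1
  -- derivations dual to `c`
  choose D hD using fun θ : Θ =>
    exists_derivation hs2.1 (fun i => if (i : K) = c θ then (1 : K) else 0)
  have hDc : ∀ θ θ', D θ (c θ') = if θ = θ' then 1 else 0 := by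
    intro θ θ'
    have h1 := hD θ ⟨c θ', hs1 ⟨θ', rfl⟩⟩
    simp only at h1
    rw [h1]
    by_cases h : θ = θ'
    · subst h; simp
    · rw [if_neg h, if_neg]
      intro h2
      exact h (hc.injective h2.symm)
  have hDz : ∀ θ j, j ∉ S → D θ (z j) = 0 := by
    intro θ j hj
    have h1 := hD θ ⟨z j, hzs j hj⟩
    simp only at h1
    rw [h1, if_neg]
    intro h2
    have h3 := hEc j hj θ
    rw [← h2, hE, if_pos rfl] at h3
    exact one_ne_zero h3
  have hsum : ∀ (θ : Θ) (S' : Finset β) (y : K), (∑ j ∈ S', D θ (z j) • E j) y =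
      ∑ j ∈ S', D θ (z j) * E j y := by
    intro θ S' y
    induction S' using Finset.induction_on with
    | empty => simp
    | insert a S' ha ih =>
      rw [Finset.sum_insert ha, Finset.sum_insert ha, Derivation.add_apply, ih,
        Derivation.smul_apply, smul_eq_mul]
  have hDE : ∀ θ, D θ = ∑ j ∈ S, D θ (z j) • E j := by
    intro θ
    apply Derivation.ext
    intro y
    have h2 := der_eq_zero (V := K) (D θ - ∑ j ∈ S, D θ (z j) • E j) (Set.range z) ?_
      (hzalg.isAlgebraic y)
    · rw [Derivation.sub_apply, sub_eq_zero] at h2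
      exact h2
    · rintro _ ⟨i, rfl⟩
      rw [Derivation.sub_apply, sub_eq_zero, hsum]
      by_cases hi : i ∈ S
      · rw [Finset.sum_eq_single i]
        · rw [hE, if_pos rfl, mul_one]
        · intro b _ hb
          rw [hE, if_neg hb, mul_zero]
        · intro h
          exact absurd hi h
      · rw [hDz θ i hi]
        symm
        refine Finset.sum_eq_zero fun j hj => ?_
        rw [hE, if_neg, mul_zero]
        rintro rfl
        exact hi hj
  refine ⟨{b | z b ∈ s ∧ z b ∉ Set.range c}, S, D, hDE, hDc, ?_, ?_⟩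
  · rintro θ b ⟨h1, h2⟩
    have h3 := hD θ ⟨z b, h1⟩
    simp only at h3
    rw [h3, if_neg]
    intro h4
    exact h2 ⟨θ, h4.symm⟩
  · have h1 : Set.range ((↑) : s → K) ⊆ Set.range c ∪ z '' {b | z b ∈ s ∧ z b ∉ Set.range c} := by
      rintro _ ⟨⟨y, hy⟩, rfl⟩
      by_cases hyc : y ∈ Set.range c
      · exact Or.inl hyc
      · rcases hs3 hy with h2 | ⟨i, rfl⟩
        · exact Or.inl h2
        · exact Or.inr ⟨i, ⟨hy, hyc⟩, rfl⟩
    constructor
    intro y
    exact isAlgebraic_adjoin_mono h1 (hsalg.isAlgebraic y)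

end Exchange

end Pool.Agent.Lib.MP_44a246_ntV
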