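import Mathlib
import Pool.Agent.Lib.MP_44a246_ntV.VBasis

/-!
The derivations dual to a transcendence basis containing the coefficients, with uniform bounds for
the poles.
-/

namespace Pool.Agent.Lib.MP_44a246_ntV

open Pool.Agent.Lib.MP_e52354_nt
open Pool.Agent.Lib.MP_44a246_nt
open Pool.Agent.Lib.MP_44a246_ntL
open Pool.Agent.Lib.MP_44a246_ntT
open WithZero Polynomial

universe u v

section Family

variable {k₀ : Type*} {κ : Type u} {K : Type v} [Field k₀] [CharZero k₀] [Field κ] [Field K]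
  [Algebra k₀ κ] [Algebra κ K] [Algebra k₀ K] [IsScalarTower k₀ κ K]
  [Algebra κ[X] K] [IsScalarTower κ κ[X] K]
  [Algebra (RatFunc κ) K] [IsScalarTower κ[X] (RatFunc κ) K]
  [Algebra (Rinf κ) K] [IsScalarTower (Rinf κ) (RatFunc κ) K]
  [FiniteDimensional (RatFunc κ) K]

omit [Algebra k₀ κ] [IsScalarTower k₀ κ K] in
/-- uniform denominators for the derivations dual to a transcendence basis -/
theorem family_delta {β : Type*} [DecidableEq β] {z : β → K} {E : β → Derivation k₀ K K} {b₀ : β}
    (hzt : z b₀ = algebraMap κ[X] K X)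
    (hzalg : Algebra.IsAlgebraic (IntermediateField.adjoin k₀ (Set.range z)) K)
    (hE : ∀ b b', E b (z b') = if b = b' then 1 else 0)
    (hEκ : ∀ b, ∀ u : κ, ∃ u' : κ, E b (algebraMap κ K u) = algebraMap κ K u') (C : Finset K) :
    (∃ δ : κ[X], δ ≠ 0 ∧
      (∀ b, ∀ y : K, IsIntegral κ[X] y → IsIntegral κ[X] (algebraMap κ[X] K δ * E b y)) ∧
      (∀ b, ∀ y ∈ C, IsIntegral κ[X] (algebraMap κ[X] K δ * E b y))) ∧
    (∃ δ : Rinf κ, δ ≠ 0 ∧
      (∀ b, ∀ y : K, IsIntegral (Rinf κ) y →
        IsIntegral (Rinf κ) (algebraMap (Rinf κ) K δ * E b y)) ∧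
      (∀ b, ∀ y ∈ C, IsIntegral (Rinf κ) (algebraMap (Rinf κ) K δ * E b y))) := by
  classical
  have hcK : CharZero K := charZero_of_injective_algebraMap (algebraMap k₀ K).injective
  have hc0 : CharZero (RatFunc κ) := charZero_RatFunc κ K
  -- generators
  obtain ⟨G, hG⟩ : ∃ G : Finset K, Algebra.adjoin (RatFunc κ) (G : Set K) = ⊤ :=
    (inferInstance : Algebra.FiniteType (RatFunc κ) K).out
  -- finitely many of the `z j` suffice
  choose T hT1 hT2 using fun y : K => exists_finset_isAlgebraic (hzalg.isAlgebraic y)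
  set U : Finset K := (G ∪ C).biUnion T with hU
  have hUz : (U : Set K) ⊆ Set.range z := by
    rw [hU, Finset.coe_biUnion]
    exact Set.iUnion₂_subset fun y _ => hT1 y
  obtain ⟨S₀, hS₀⟩ : ∃ S₀ : Finset β, S₀.image z = U := by
    obtain ⟨S₀, _, hS₀⟩ := Finset.subset_set_image_iff.mp
      (show (U : Set K) ⊆ z '' Set.univ by rwa [Set.image_univ])
    exact ⟨S₀, hS₀⟩
  have hUalg : ∀ y ∈ G ∪ C,
      IsAlgebraic (IntermediateField.adjoin k₀ (U : Set K)) y := fun y hy =>
    isAlgebraic_adjoin_mono (Finset.coe_subset.mpr (Finset.subset_biUnion_of_mem T hy)) (hT2 y)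
  set B₁ : Finset β := insert b₀ S₀ with hB₁
  -- the derivations which are not in `B₁`
  have hkill : ∀ b ∉ B₁, ∀ y ∈ G ∪ C, E b y = 0 := by
    intro b hb y hy
    refine der_eq_zero (V := K) (E b) (U : Set K) ?_ (hUalg y hy)
    intro u hu
    rw [← hS₀, Finset.coe_image] at hu
    obtain ⟨j, hj, rfl⟩ := hu
    rw [hE, if_neg]
    rintro rfl
    exact hb (Finset.mem_insert_of_mem hj)
  have hEt : ∀ b, b ≠ b₀ → E b (algebraMap κ[X] K X) = 0 := by
    intro b hb
    rw [← hzt, hE, if_neg hb]
  have hEt' : ∀ b, ∃ v : κ, derZ (E b) (algebraMap κ[X] K X) = algebraMap κ K v := by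
    intro b
    show ∃ v : κ, E b (algebraMap κ[X] K X) = algebraMap κ K v
    by_cases hb : b = b₀
    · exact ⟨1, by rw [← hzt, hE, if_pos hb, map_one]⟩
    · exact ⟨0, by rw [hEt b hb, map_zero]⟩
  have hEκ' : ∀ b, ∀ u : κ, ∃ u' : κ, derZ (E b) (algebraMap κ K u) = algebraMap κ K u' := hEκ
  have hout : ∀ b ∉ B₁, (∀ y : K, IsIntegral κ[X] y → IsIntegral κ[X] (E b y)) ∧
      ∀ y : K, IsIntegral (Rinf κ) y → IsIntegral (Rinf κ) (E b y) := by
    intro b hb
    refine stable_of_kill (derZ (E b)) (hEκ' b) ?_ G ?_ hG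
    · refine hEt b ?_
      rintro rfl
      exact hb (Finset.mem_insert_self _ _)
    · intro y hy
      exact hkill b hb y (Finset.mem_union_left _ hy)
  -- common denominators
  let f : B₁ → B₁ → K := fun b j => if b = j then 1 else 0
  let S' : Finset K := B₁.biUnion fun b => C.image fun y => E b y
  have hf1 : ∀ (b : B₁) (y : K), ∑ j, f b j * derZ (E (j : β)) y = E b y := by
    intro b y
    rw [Finset.sum_eq_single b]
    · show (if b = b then 1 else 0) * E b y = E b y
      rw [if_pos rfl, one_mul]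
    · intro j _ hj
      show (if b = j then 1 else 0) * E j y = 0
      rw [if_neg (Ne.symm hj), zero_mul]
    · intro h
      exact absurd (Finset.mem_univ b) h
  obtain ⟨δf, hδf0, hδf1, hδf2⟩ := exists_delta_comb (R := κ[X]) (K₀ := RatFunc κ)
    (fun j : B₁ => derZ (E j)) (fun j ρ => by
      obtain ⟨g, hg, -⟩ := poly_stable (derZ (E j)) (hEκ' j) (hEt' j) ρ
      exact ⟨g, hg⟩) f S'
  obtain ⟨δi, hδi0, hδi1, hδi2⟩ := exists_delta_comb (R := Rinf κ) (K₀ := RatFunc κ)
    (fun j : B₁ => derZ (E j)) (fun j ρ => rinf_stable (derZ (E j)) (hEκ' j) (hEt' j) ρ) f S'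
  have hmemS' : ∀ b ∈ B₁, ∀ y ∈ C, E b y ∈ S' := fun b hb y hy =>
    Finset.mem_biUnion.mpr ⟨b, hb, Finset.mem_image_of_mem _ hy⟩
  refine ⟨⟨δf, hδf0, ?_, ?_⟩, ⟨δi, hδi0, ?_, ?_⟩⟩
  · intro b y hy
    by_cases hb : b ∈ B₁
    · have h := hδf1 ⟨b, hb⟩ y hy
      rwa [hf1] at h
    · exact isIntegral_algebraMap.mul ((hout b hb).1 y hy)
  · intro b y hy
    by_cases hb : b ∈ B₁
    · exact hδf2 _ (hmemS' b hb y hy)
    · rw [hkill b hb _ (Finset.mem_union_right _ hy), mul_zero]
      exact isIntegral_zero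
  · intro b y hy
    by_cases hb : b ∈ B₁
    · have h := hδi1 ⟨b, hb⟩ y hy
      rwa [hf1] at h
    · exact isIntegral_algebraMap.mul ((hout b hb).2 y hy)
  · intro b y hy
    by_cases hb : b ∈ B₁
    · exact hδi2 _ (hmemS' b hb y hy)
    · rw [hkill b hb _ (Finset.mem_union_right _ hy), mul_zero]
      exact isIntegral_zero

end Family

section Setup

variable {k₀ : Type*} {κ : Type u} {K : Type v} [Field k₀] [CharZero k₀] [Field κ]
  [IsAlgClosed κ] [CharZero κ] [Field K]
  [Algebra k₀ κ] [Algebra κ K] [Algebra k₀ K] [IsScalarTower k₀ κ K]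

/-- uniform bounds for the poles of the derivations dual to a transcendence basis -/
theorem exists_basis_bound {t : K} (ht : Transcendental κ t)
    (hfin : FiniteDimensional (IntermediateField.adjoin κ {t}) K) (C : Finset K) :
    ∃ (β : Type u) (_ : DecidableEq β) (z : β → K) (E : β → Derivation k₀ K K)
      (B : Place κ K → ℕ),
      (Function.support B).Finite ∧
      (∀ b, z b = t ∨ ∃ u : κ, z b = algebraMap κ K u) ∧
      Algebra.IsAlgebraic (IntermediateField.adjoin k₀ (Set.range z)) K ∧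
      (∀ b b', E b (z b') = if b = b' then 1 else 0) ∧
      (∀ b, PoleBound κ (derZ (E b)) B) ∧
      (∀ b, ∀ y ∈ C, ∀ v : Place κ K, v.1 (E b y) ≤ exp (B v : ℤ)) := by
  classical
  have hff : IsFF κ K := ⟨t, ht, hfin⟩
  have hcK : CharZero K := charZero_of_injective_algebraMap (algebraMap κ K).injective
  refine with_instances' ht ?_
  intro iX t3 iK t1 iR t2 hfin' hX
  have hc0 : CharZero (RatFunc κ) := charZero_RatFunc κ K
  have halg : Algebra.IsAlgebraic (IntermediateField.adjoin κ {t}) K :=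
    Algebra.IsAlgebraic.of_finite _ _
  obtain ⟨ι, z, E, hzt, hzc, hzalg, hE, hEκ⟩ := exists_basis_ders' (k₀ := k₀) ht halg
  have hE' : ∀ b b', E b (z b') = if b = b' then 1 else 0 := by
    intro b b'
    rw [hE]
  obtain ⟨⟨δf, hδf0, hf1, hf2⟩, ⟨δi, hδi0, hi1, hi2⟩⟩ := family_delta (κ := κ)
    (b₀ := Sum.inl ()) (by rw [hzt, hX]) hzalg hE' hEκ C
  have hf0 : algebraMap (Polynomial κ) K δf ≠ 0 := by
    rw [IsScalarTower.algebraMap_apply (Polynomial κ) (RatFunc κ) K]
    refine (_root_.map_ne_zero _).mpr ?_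
    rwa [ne_eq, FaithfulSMul.algebraMap_eq_zero_iff]
  have hi0 : algebraMap (Rinf κ) K δi ≠ 0 := by
    rw [IsScalarTower.algebraMap_apply (Rinf κ) (RatFunc κ) K]
    refine (_root_.map_ne_zero _).mpr ?_
    rwa [ne_eq, FaithfulSMul.algebraMap_eq_zero_iff]
  let Bδ : Place κ K → ℕ := fun v =>
    if v.1 (algebraMap (Polynomial κ) K Polynomial.X) ≤ 1 then
      (- log (v.1 (algebraMap (Polynomial κ) K δf))).toNat else
      (- log (v.1 (algebraMap (Rinf κ) K δi))).toNat
  have hBδ : (Function.support Bδ).Finite := by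
    refine ((hff.place_finite hf0).union (hff.place_finite hi0)).subset fun v hv => ?_
    by_contra hcon
    rw [Set.mem_union, not_or] at hcon
    obtain ⟨h1, h2⟩ := hcon
    simp only [Set.mem_ofPred_eq, not_not] at h1 h2
    apply hv
    simp only [Bδ, h1, h2, log_one, neg_zero, Int.toNat_zero, ite_self]
  refine ⟨Unit ⊕ ι, inferInstance, z, E, Bδ, hBδ, hzc, hzalg, ?_, ?_, ?_⟩
  · intro b b'
    rw [hE]
  · intro b v y hy
    simp only [Bδ]
    split_ifs with hXv
    · exact lpol_div v.1 hf0 (der_bound (K₀ := RatFunc κ) v.1 (place_poly v hXv) (derZ (E b)) δf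
        (hf1 b) hy)
    · exact lpol_div v.1 hi0 (der_bound (K₀ := RatFunc κ) v.1 (place_rinf v hXv) (derZ (E b)) δi
        (hi1 b) hy)
  · intro b y hy v
    simp only [Bδ]
    split_ifs with hXv
    · exact lpol_div v.1 hf0 (integral_le_one v.1 (place_poly v hXv) (hf2 b y hy))
    · exact lpol_div v.1 hi0 (integral_le_one v.1 (place_rinf v hXv) (hi2 b y hy))

/-- a common bound for the poles of finitely many elements -/
theorem exists_polesA (hK : IsFF κ K) {θ : Type*} [Fintype θ] (aK : θ → K) :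
    ∃ A : Place κ K → ℕ, (Function.support A).Finite ∧ ∀ I v, v.1 (aK I) ≤ exp (A v : ℤ) := by
  classical
  refine ⟨fun v => ∑ I, (log (v.1 (aK I))).toNat, ?_, ?_⟩
  · have h3 : (Function.support fun v : Place κ K => ∑ I, (log (v.1 (aK I))).toNat) ⊆
        ⋃ I, Function.support fun v : Place κ K => log (v.1 (aK I)) := by
      intro v hv
      rw [Set.mem_iUnion]
      by_contra hcon
      push Not at hcon
      apply hv
      refine Finset.sum_eq_zero fun I _ => ?_
      have := hcon I
      rw [Function.mem_support, not_not] at this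
      rw [this]
      rfl
    refine (Set.finite_iUnion fun I => ?_).subset h3
    by_cases h0 : aK I = 0
    · rw [h0]
      simp
    · exact hK.place_support h0
  · intro I v
    by_cases h0 : aK I = 0
    · rw [h0, map_zero]; exact zero_le
    · rw [← log_le_iff_le_exp ((v.1.ne_zero_iff).mpr h0)]
      have h4 : (log (v.1 (aK I))).toNat ≤ ∑ I, (log (v.1 (aK I))).toNat :=
        Finset.single_le_sum (f := fun I => (log (v.1 (aK I))).toNat)
          (fun _ _ => Nat.zero_le _) (Finset.mem_univ I)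
      have h5 := Int.self_le_toNat (log (v.1 (aK I)))
      have h6 : (((log (v.1 (aK I))).toNat : ℕ) : ℤ) ≤
        ((∑ I, (log (v.1 (aK I))).toNat : ℕ) : ℤ) := by exact_mod_cast h4
      exact h5.trans h6

/-- derivations vanishing on generators of an algebraic extension vanish -/
theorem der_zero_of_gen [CharZero K] {W : Set K}
    (hW : Algebra.IsAlgebraic (IntermediateField.adjoin k₀ W) K) (D : Derivation k₀ K K)
    (h : ∀ y ∈ W, D y = 0) (y : K) : D y = 0 :=
  der_eq_zero (V := K) D W h (hW.isAlgebraic y)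

/-- Derivations dual to a transcendence basis containing the given family, and commuting. -/
theorem exists_setupV {t : K} (ht : Transcendental κ t)
    (hfin : FiniteDimensional (IntermediateField.adjoin κ {t}) K) {Θ : Type*} [Fintype Θ]
    [DecidableEq Θ] {aK : Θ → K} (hc : AlgebraicIndependent k₀ aK) :
    ∃ (T : Type u) (_ : DecidableEq T) (z : T → K) (E : T → Derivation k₀ K K)
      (DK : Θ → Derivation k₀ K K) (B A : Place κ K → ℕ), (Function.support B).Finite ∧
      (Function.support A).Finite ∧ (∀ I, PoleBound κ (derZ (DK I)) B) ∧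
      (∀ b, PoleBound κ (derZ (E b)) B) ∧
      (∀ I v, v.1 (aK I) ≤ exp (A v : ℤ)) ∧ (∀ b v, v.1 (z b) ≤ exp (A v : ℤ)) ∧
      (∀ I J, DK I (aK J) = if I = J then 1 else 0) ∧ (∀ I b, DK I (z b) = 0) ∧
      (∀ b I, E b (aK I) = 0) ∧ (∀ b b', E b (z b') = if b = b' then 1 else 0) ∧
      (∀ I J y, DK I (DK J y) = DK J (DK I y)) ∧ (∀ I b y, DK I (E b y) = E b (DK I y)) ∧
      Algebra.IsAlgebraic (IntermediateField.adjoin k₀ (Set.range aK ∪ Set.range z)) K := by
  classical
  have hcK : CharZero K := charZero_of_injective_algebraMap (algebraMap κ K).injective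
  have hK : IsFF κ K := ⟨t, ht, hfin⟩
  obtain ⟨β, iβ, z, F, B₁, hB₁, hzc, hzalg, hF, hPF, hFa⟩ :=
    exists_basis_bound (k₀ := k₀) ht hfin (Finset.univ.image aK)
  obtain ⟨T, S, D, hDE, hDc, hDT, hTalg⟩ := exists_exchange hzalg hF hc
  have hDsum : ∀ θ y, D θ y = ∑ j ∈ S, D θ (z j) * F j y := by
    intro θ y
    have hsum : ∀ (S' : Finset β), (∑ j ∈ S', D θ (z j) • F j) y =
        ∑ j ∈ S', D θ (z j) * F j y := by
      intro S'
      induction S' using Finset.induction_on with
      | empty => simp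
      | insert a S' ha ih =>
        rw [Finset.sum_insert ha, Finset.sum_insert ha, Derivation.add_apply, ih,
          Derivation.smul_apply, smul_eq_mul]
    rw [← hsum S, ← hDE θ]
  -- the derivations dual to the other elements
  let E : T → Derivation k₀ K K := fun b => F b - ∑ I, F b (aK I) • D I
  have hEy : ∀ b y, E b y = F b y - ∑ I, F b (aK I) * D I y := by
    intro b y
    have hsum : ∀ (S' : Finset Θ), (∑ I ∈ S', F b (aK I) • D I) y =
        ∑ I ∈ S', F b (aK I) * D I y := by
      intro S'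
      induction S' using Finset.induction_on with
      | empty => simp
      | insert a S' ha ih =>
        rw [Finset.sum_insert ha, Finset.sum_insert ha, Derivation.add_apply, ih,
          Derivation.smul_apply, smul_eq_mul]
    show (F b - ∑ I, F b (aK I) • D I) y = _
    rw [Derivation.sub_apply, hsum]
  have hEa : ∀ b I, E b (aK I) = 0 := by
    intro b I
    rw [hEy, Finset.sum_eq_single I]
    · rw [hDc, if_pos rfl, mul_one, sub_self]
    · intro J _ hJ
      rw [hDc, if_neg hJ, mul_zero]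
    · intro h; exact absurd (Finset.mem_univ _) h
  have hDz : ∀ I (b : T), D I (z b) = 0 := fun I b => hDT I b b.2
  have hEz : ∀ b b' : T, E b (z b') = if b = b' then 1 else 0 := by
    intro b b'
    rw [hEy, hF]
    have h1 : ∑ I, F b (aK I) * D I (z b') = 0 := Finset.sum_eq_zero fun I _ => by
      rw [hDz, mul_zero]
    rw [h1, sub_zero]
    exact if_congr (by rw [Subtype.ext_iff]) rfl rfl
  have hgen : ∀ G : Derivation k₀ K K, (∀ I, G (aK I) = 0) → (∀ b : T, G (z b) = 0) →
      ∀ y, G y = 0 := by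
    intro G h1 h2 y
    refine der_zero_of_gen hTalg G ?_ y
    rintro _ (⟨I, rfl⟩ | ⟨b, hb, rfl⟩)
    · exact h1 I
    · exact h2 ⟨b, hb⟩
  have hzero : ∀ (G : Derivation k₀ K K) (P : Prop) [Decidable P],
      G (if P then 1 else 0) = 0 := by
    intro G P _
    split_ifs
    · exact Derivation.map_one_eq_zero G
    · exact map_zero G
  have hcomm : ∀ I J y, D I (D J y) = D J (D I y) := by
    intro I J y
    have h1 := hgen ⁅D I, D J⁆ (fun K' => by
        rw [Derivation.commutator_apply, hDc, hDc, hzero, hzero, sub_zero]) (fun b => by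
        rw [Derivation.commutator_apply, hDz, hDz, map_zero, map_zero, sub_zero]) y
    rw [Derivation.commutator_apply] at h1
    exact sub_eq_zero.mp h1
  have hcommE : ∀ I b y, D I (E b y) = E b (D I y) := by
    intro I b y
    have h1 := hgen ⁅D I, E b⁆ (fun K' => by
        rw [Derivation.commutator_apply, hDc, hEa, hzero, map_zero, sub_zero]) (fun b' => by
        rw [Derivation.commutator_apply, hDz, hEz, hzero, map_zero, sub_zero]) y
    rw [Derivation.commutator_apply] at h1
    exact sub_eq_zero.mp h1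
  -- the poles
  obtain ⟨A₁, hA₁, hPA₁⟩ := exists_polesA hK (fun o : Option Θ => o.elim t aK)
  have hPD : ∀ I, ∃ B : Place κ K → ℕ, (Function.support B).Finite ∧
      PoleBound κ (derZ (D I)) B := by
    intro I
    have h1 : ∀ j : S, ∃ B : Place κ K → ℕ, (Function.support B).Finite ∧
      PoleBound κ (derZ (F j)) B := fun j => ⟨B₁, hB₁, hPF j⟩
    obtain ⟨B, hB, hPB⟩ := poleBound_sum hK (fun j : S => derZ (F j)) (fun j => D I (z j)) h1
    refine ⟨B, hB, ?_⟩
    intro v y hy
    have h2 := hPB v y hy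
    rw [sum_smul_der] at h2
    have h3 : (derZ (D I)) y = ∑ j : S, D I (z j) * derZ (F j) y := by
      show D I y = _
      rw [hDsum, ← Finset.sum_coe_sort S]
      rfl
    rw [h3]
    exact h2
  obtain ⟨B₂, hB₂, hPB₂⟩ := poleBound_family (fun I => derZ (D I)) hPD
  refine ⟨T, inferInstance, fun b => z b, E, D, fun v => B₁ v + B₂ v, A₁, ?_, hA₁, ?_, ?_, ?_, ?_,
    hDc, hDz, hEa, hEz, hcomm, hcommE, ?_⟩
  · refine (hB₁.union hB₂).subset fun v hv => ?_
    by_contra hcon
    rw [Set.mem_union, not_or, Function.mem_support, Function.mem_support, not_not, not_not] at hcon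
    apply hv
    show B₁ v + B₂ v = 0
    rw [hcon.1, hcon.2, add_zero]
  · intro I v y hy
    refine (hPB₂ I v y hy).trans (exp_le_exp.mpr ?_)
    push_cast
    have : (0 : ℤ) ≤ B₁ v := Int.natCast_nonneg _
    linarith
  · intro b v y hy
    have h3 : (0 : ℤ) ≤ B₁ v := Int.natCast_nonneg _
    have h4 : (0 : ℤ) ≤ B₂ v := Int.natCast_nonneg _
    show v.1 (E b y) ≤ _
    rw [hEy]
    refine (v.1.map_sub _ _).trans (max_le ?_ ?_)
    · refine (hPF b v y hy).trans (exp_le_exp.mpr ?_)
      push_cast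
      linarith
    · refine v.1.map_sum_le fun I _ => ?_
      rw [map_mul]
      calc v.1 (F b (aK I)) * v.1 (D I y) ≤ exp (B₁ v : ℤ) * exp (B₂ v : ℤ) :=
            mul_le_mul' (hFa b _ (Finset.mem_image_of_mem _ (Finset.mem_univ I)) v)
              (hPB₂ I v y hy)
        _ = exp ((B₁ v + B₂ v : ℕ) : ℤ) := by
            rw [← exp_add]
            congr 1
  · intro I v
    exact hPA₁ (some I) v
  · rintro b v
    rcases hzc b with h | ⟨u, hu⟩
    · show v.1 (z b) ≤ _
      rw [h]
      exact hPA₁ none v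
    · show v.1 (z b) ≤ _
      rw [hu]
      by_cases hu0 : u = 0
      · rw [hu0, map_zero, map_zero]
        exact zero_le
      · rw [v.2.2 u hu0, ← exp_zero, exp_le_exp]
        exact Int.natCast_nonneg _
  · have h1 : Set.range (fun b : T => z b) = z '' T := by
      ext y
      constructor
      · rintro ⟨b, rfl⟩
        exact ⟨b, b.2, rfl⟩
      · rintro ⟨b, hb, rfl⟩
        exact ⟨⟨b, hb⟩, rfl⟩
    rw [h1]
    exact hTalg

end Setup

end Pool.Agent.Lib.MP_44a246_ntV
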