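import Mathlib
import Pool.Agent.Lib.MP_44a246_ntB.Base5
import Pool.Agent.Lib.MP_e52354_ntG.Data

/-!
Ultraproducts of data: the derivations may vary with the index.
-/

set_option linter.unusedSectionVars false

namespace Pool.Agent.Lib.MP_44a246_ntV

open Pool.Agent.Lib.MP_e52354_nt Pool.Agent.Lib.MP_e52354_ntP Pool.Agent.Lib.MP_e52354_ntG
open Pool.Agent.Lib.MP_44a246_ntB

section Ultra

variable {Λ : Type*} [Field Λ] {L : ℕ → Type*} [∀ j, Field (L j)] (φ : ∀ j, L j →+* Λ)

theorem mkU_eq_iff (g g' : ∀ j, L j) :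
    mkU φ g = mkU φ g' ↔ ∀ᶠ j in (Filter.hyperfilter ℕ : Filter ℕ), g j = g' j := by
  rw [← sub_eq_zero, ← map_sub, mkU_eq_zero]
  simp only [Pi.sub_apply, sub_eq_zero]

/-- the values of the derivation of the ultraproduct defined by a sequence of derivations -/
noncomputable def dvFun (D : ∀ j, Derivation ℤ (L j) (L j)) (y : MU φ) : MU φ :=
  mkU φ (fun j => D j ((mkU_surjective φ y).choose j))

theorem dvFun_mkU (D : ∀ j, Derivation ℤ (L j) (L j)) (g : ∀ j, L j) :
    dvFun φ D (mkU φ g) = mkU φ (fun j => D j (g j)) := by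
  unfold dvFun
  rw [mkU_eq_iff]
  have h1 := (mkU_surjective φ (mkU φ g)).choose_spec
  rw [mkU_eq_iff] at h1
  filter_upwards [h1] with j hj
  rw [hj]

/-- the derivation of the ultraproduct defined by a sequence of derivations -/
noncomputable def DV (D : ∀ j, Derivation ℤ (L j) (L j)) : Derivation ℤ (MU φ) (MU φ) :=
  Derivation.mk' (AddMonoidHom.toIntLinearMap
    { toFun := dvFun φ D
      map_zero' := by
        have h1 : dvFun φ D (mkU φ 0) = mkU φ (fun j => D j ((0 : ∀ j, L j) j)) := dvFun_mkU φ D 0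
        rw [map_zero] at h1
        rw [h1]
        have h2 : (fun j => D j ((0 : ∀ j, L j) j)) = 0 := by
          funext j
          exact map_zero (D j)
        rw [h2, map_zero]
      map_add' := fun x y => by
        obtain ⟨f, rfl⟩ := mkU_surjective φ x
        obtain ⟨g, rfl⟩ := mkU_surjective φ y
        rw [← map_add, dvFun_mkU, dvFun_mkU, dvFun_mkU, ← map_add]
        congr 1
        funext j
        exact map_add (D j) _ _ }) (fun x y => by
    obtain ⟨f, rfl⟩ := mkU_surjective φ x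
    obtain ⟨g, rfl⟩ := mkU_surjective φ y
    show dvFun φ D (mkU φ f * mkU φ g) = mkU φ f * dvFun φ D (mkU φ g) +
      mkU φ g * dvFun φ D (mkU φ f)
    rw [← map_mul, dvFun_mkU, dvFun_mkU, dvFun_mkU, ← map_mul, ← map_mul, ← map_add]
    congr 1
    funext j
    exact Derivation.leibniz (D j) _ _)

theorem DV_mkU (D : ∀ j, Derivation ℤ (L j) (L j)) (g : ∀ j, L j) :
    DV φ D (mkU φ g) = mkU φ (fun j => D j (g j)) := dvFun_mkU φ D g

variable {ι : Type*} [DecidableEq ι]

/-- the ultraproduct of a sequence of data -/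
noncomputable def YV (Y : ∀ j, DData ι Empty (L j)) : DData ι Empty (MU φ) where
  a I := mkU φ (fun j => (Y j).a I)
  b g := g.elim
  D I := DV φ (fun j => (Y j).D I)
  hD I J := by
    rw [DV_mkU]
    have h1 : (fun j => (Y j).D I ((Y j).a J)) = fun _ => if I = J then 1 else 0 := by
      funext j
      exact (Y j).hD I J
    rw [h1]
    by_cases hIJ : I = J
    · simp only [if_pos hIJ]
      exact map_one _
    · simp only [if_neg hIJ]
      exact map_zero _
  hb _ g := g.elim
  hcomm I J y := by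
    obtain ⟨g, rfl⟩ := mkU_surjective φ y
    rw [DV_mkU, DV_mkU, DV_mkU, DV_mkU]
    congr 1
    funext j
    exact (Y j).hcomm I J _

/-- transfer of local bounds -/
theorem localBound_of_ultra (Y : ∀ j, DData ι Empty (L j)) {s : ℕ} {p : Fin s → ∀ j, L j}
    {c e : ℕ} {J : ∀ j, L j}
    (h : LocalBound (YV φ Y) (fun k => mkU φ (p k)) c e (mkU φ J)) :
    ∀ᶠ j in (Filter.hyperfilter ℕ : Filter ℕ),
      LocalBound (Y j) (fun k => p k j) c e (J j) := by
  classical
  -- the failure of the local bound at a place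
  let Bad : ∀ j, Fin s → Subring (L j) → L j → Prop := fun j l O δ =>
    (∀ y, y ∈ O ∨ y⁻¹ ∈ O) ∧ δ ∈ O ∧ (∀ I, ∀ y ∈ O, δ * (Y j).D I y ∈ O) ∧
      (∀ I, δ * (Y j).a I ∈ O) ∧ p l j ≠ 0 ∧ (∀ i, p i j / p l j ∈ O) ∧
      ¬ δ ^ c * (J j * p l j ^ e) ∈ O
  by_contra hcon
  have hcon' : ∀ᶠ j in (Filter.hyperfilter ℕ : Filter ℕ),
      ¬ LocalBound (Y j) (fun k => p k j) c e (J j) := Ultrafilter.eventually_not.mpr hcon
  have hσ : ∀ᶠ j in (Filter.hyperfilter ℕ : Filter ℕ), ∃ l : Fin s, ∃ (O : Subring (L j))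
      (δ : L j), Bad j l O δ := by
    filter_upwards [hcon'] with j hj
    unfold LocalBound at hj
    push Not at hj
    obtain ⟨O, δ, h1, h2, h3, h4, -, l, h5, h6, h7⟩ := hj
    exact ⟨l, O, δ, h1, h2, h3, h4, h5, h6, h7⟩
  obtain ⟨l, hl⟩ := ultra_exists hσ
  have h1 : ∀ j, ∃ (O : Subring (L j)) (δ : L j),
      (∃ (O : Subring (L j)) (δ : L j), Bad j l O δ) → Bad j l O δ := by
    intro j
    by_cases hj : ∃ (O : Subring (L j)) (δ : L j), Bad j l O δ
    · obtain ⟨O, δ, h2⟩ := hj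
      exact ⟨O, δ, fun _ => h2⟩
    · exact ⟨⊤, 0, fun h => absurd h hj⟩
  choose O δ hO using h1
  have hall : ∀ᶠ j in (Filter.hyperfilter ℕ : Filter ℕ), Bad j l (O j) (δ j) := by
    filter_upwards [hl] with j hj using hO j hj
  -- the ultraproduct of the rings
  let O' : Subring (MU φ) :=
    { carrier := {y | ∃ f, mkU φ f = y ∧ ∀ᶠ n in (Filter.hyperfilter ℕ : Filter ℕ), f n ∈ O n}
      mul_mem' := by
        rintro _ _ ⟨f, rfl, hf⟩ ⟨g, rfl, hg⟩
        refine ⟨f * g, map_mul _ _ _, ?_⟩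
        filter_upwards [hf, hg] with n h1 h2 using (O n).mul_mem h1 h2
      one_mem' := ⟨1, map_one _, Filter.Eventually.of_forall fun n => (O n).one_mem⟩
      add_mem' := by
        rintro _ _ ⟨f, rfl, hf⟩ ⟨g, rfl, hg⟩
        refine ⟨f + g, map_add _ _ _, ?_⟩
        filter_upwards [hf, hg] with n h1 h2 using (O n).add_mem h1 h2
      zero_mem' := ⟨0, map_zero _, Filter.Eventually.of_forall fun n => (O n).zero_mem⟩
      neg_mem' := by
        rintro _ ⟨f, rfl, hf⟩
        refine ⟨-f, map_neg _ _, ?_⟩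
        filter_upwards [hf] with n h1 using (O n).neg_mem h1 }
  have hmem : ∀ f : ∀ j, L j, mkU φ f ∈ O' ↔
      ∀ᶠ n in (Filter.hyperfilter ℕ : Filter ℕ), f n ∈ O n := by
    intro f
    constructor
    · rintro ⟨g, hfg, hg⟩
      rw [mkU_eq_iff] at hfg
      filter_upwards [hfg, hg] with n h1 h2
      rw [← h1]; exact h2
    · intro hf
      exact ⟨f, rfl, hf⟩
  have hfin := h O' (mkU φ δ) ?_ ?_ ?_ ?_ (fun g => g.elim) l ?_ ?_
  · have h2 : (mkU φ δ) ^ c * (mkU φ J * (mkU φ (p l)) ^ e) =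
        mkU φ (fun n => δ n ^ c * (J n * p l n ^ e)) := by
      rw [← map_pow, ← map_pow, ← map_mul, ← map_mul]
      rfl
    rw [h2, hmem] at hfin
    obtain ⟨n, hn1, hn2⟩ := (hfin.and hall).exists
    exact hn2.2.2.2.2.2.2 hn1
  · intro y
    obtain ⟨f, rfl⟩ := mkU_surjective φ y
    rw [← mkU_inv, hmem, hmem, ← Ultrafilter.eventually_or]
    filter_upwards [hall] with n hn using hn.1 (f n)
  · rw [hmem]
    filter_upwards [hall] with n hn using hn.2.1
  · intro I y hy
    obtain ⟨f, rfl⟩ := mkU_surjective φ y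
    rw [hmem] at hy
    show mkU φ δ * DV φ (fun j => (Y j).D I) (mkU φ f) ∈ O'
    rw [DV_mkU, ← map_mul, hmem]
    filter_upwards [hall, hy] with n hn h1 using hn.2.2.1 I _ h1
  · intro I
    show mkU φ δ * mkU φ (fun j => (Y j).a I) ∈ O'
    rw [← map_mul, hmem]
    filter_upwards [hall] with n hn using hn.2.2.2.1 I
  · rw [Ne, mkU_eq_zero]
    refine Ultrafilter.eventually_not.mp ?_
    filter_upwards [hall] with n hn using hn.2.2.2.2.1
  · intro k
    rw [← mkU_div, hmem]
    filter_upwards [hall] with n hn using hn.2.2.2.2.2.1 k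

end Ultra

end Pool.Agent.Lib.MP_44a246_ntV
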