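import Mathlib
import Pool.Agent.Lib.MP_44a246_ntV.VUltra
import Pool.Agent.Lib.MP_44a246_ntH.HF1
import Pool.Agent.Lib.MP_44a246_ntB.CUltra

/-!
Sequences of points of complete intersections with varying derivations: a local bound or lines of
zeros.
-/

set_option linter.unusedSectionVars false

namespace Pool.Agent.Lib.MP_44a246_ntV

open Pool.Agent.Lib.MP_e52354_nt Pool.Agent.Lib.MP_e52354_ntP Pool.Agent.Lib.MP_e52354_ntG
open Pool.Agent.Lib.MP_e52354_ntI Pool.Agent.Lib.MP_44a246_ntB Pool.Agent.Lib.MP_e52354_ntW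
open Pool.Agent.Lib.MP_44a246_ntH

section Alt

variable {Λ : Type*} [Field Λ] {L : ℕ → Type*} [∀ j, Field (L j)] (φ : ∀ j, L j →+* Λ)
  {s q : ℕ} {d : Fin q → ℕ} (Y : ∀ j, DData (Option (MIdx s q d)) Empty (L j))

theorem mA_YV (f : Fin q) :
    mA (base (YV φ Y)) f = fun I => mkU φ (fun j => mA (base (Y j)) f I) := by
  funext I
  unfold mA
  split_ifs with h1
  · rfl
  · exact (map_zero (mkU φ)).symm

theorem Fval_YV (f : Fin q) (x : Fin s → ∀ j, L j) :
    Fval (d f) (mA (base (YV φ Y)) f) (fun k => mkU φ (x k)) =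
      mkU φ (fun j => Fval (d f) (mA (base (Y j)) f) (fun k => x k j)) := by
  rw [mA_YV, ← map_Fval_pi (mkU φ) (d f) (fun I j => mA (base (Y j)) f I) x]

/-- a local bound, or the points are on lines of zeros -/
theorem ultra_alt {Num : Prop} {l : Fin s}
    (hloc : ∀ (Y' : DData (Option (MIdx s q d)) Empty (MU φ)) (p' : Fin s → MU φ), p' l = 1 →
      (∀ f, Fval (d f) (mA (base Y') f) p' = 0) → Ev Y' p' ≠ 0 →
      (∃ (c e : ℕ) (J : MU φ), 0 < e ∧ J ≠ 0 ∧ LocalBound Y' p' c e J) ∨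
        (Num ∧ MOnLine d (mA (base Y')) p'))
    (p : Fin s → ∀ j, L j) (hpl : ∀ j, p l j = 1)
    (hF : ∀ j f, Fval (d f) (mA (base (Y j)) f) (fun k => p k j) = 0)
    (hE : ∀ j, ∃ k, (Y j).D none (p k j) ≠ 0) :
    (∃ (c e : ℕ) (J : ∀ j, L j), 0 < e ∧ ∀ᶠ j in (Filter.hyperfilter ℕ : Filter ℕ), J j ≠ 0 ∧
      LocalBound (Y j) (fun k => p k j) c e (J j)) ∨
    (Num ∧ ∀ᶠ j in (Filter.hyperfilter ℕ : Filter ℕ),
      ∃ y : Fin s → L j, (∃ i k, p i j * y k - p k j * y i ≠ 0) ∧
        ∀ f, ∀ u v : L j, Fval (d f) (mA (base (Y j)) f) (fun k => p k j * u + y k * v) = 0) := by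
  classical
  set pM : Fin s → MU φ := fun k => mkU φ (p k) with hpM
  have hFM : ∀ f, Fval (d f) (mA (base (YV φ Y)) f) pM = 0 := by
    intro f
    rw [hpM, Fval_YV, mkU_eq_zero]
    exact Filter.Eventually.of_forall fun j => hF j f
  have hplM : pM l = 1 := by
    have h1 : p l = 1 := funext hpl
    rw [hpM]
    simp only [h1, map_one]
  have hEM : Ev (YV φ Y) pM ≠ 0 := by
    intro h0
    have h1 : ∀ k, ∀ᶠ j in (Filter.hyperfilter ℕ : Filter ℕ), (Y j).D none (p k j) = 0 := by
      intro k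
      have h2 : DV φ (fun j => (Y j).D none) (mkU φ (p k)) = 0 := congrFun h0 k
      rwa [DV_mkU, mkU_eq_zero] at h2
    obtain ⟨j, hj⟩ := (Filter.eventually_all.mpr h1).exists
    obtain ⟨k, hk⟩ := hE j
    exact hk (hj k)
  rcases hloc (YV φ Y) pM hplM hFM hEM with ⟨c, e, J, he, hJ0, hJ⟩ | ⟨hnum, hline⟩
  · left
    obtain ⟨J', rfl⟩ := mkU_surjective φ J
    refine ⟨c, e, J', he, Filter.Eventually.and ?_ (localBound_of_ultra φ Y hJ)⟩
    rw [Ne, mkU_eq_zero] at hJ0
    exact Ultrafilter.eventually_not.mpr hJ0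
  · right
    refine ⟨hnum, ?_⟩
    obtain ⟨z, ⟨i, k, hik⟩, hz⟩ := hline
    choose y hy using fun k => mkU_surjective φ (z k)
    have h1 : ∀ᶠ j in (Filter.hyperfilter ℕ : Filter ℕ), p i j * y k j - p k j * y i j ≠ 0 := by
      have h2 : mkU φ (fun j => p i j * y k j - p k j * y i j) ≠ 0 := by
        have e1 : mkU φ (fun j => p i j * y k j - p k j * y i j) = pM i * z k - pM k * z i := by
          rw [← hy k, ← hy i, hpM, ← map_mul, ← map_mul, ← map_sub]
          rfl
        rw [e1]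
        exact hik
      rw [Ne, mkU_eq_zero] at h2
      exact Ultrafilter.eventually_not.mpr h2
    have h2 : ∀ᶠ j in (Filter.hyperfilter ℕ : Filter ℕ), ∀ f, ∀ u v : L j,
        Fval (d f) (mA (base (Y j)) f) (fun k => p k j * u + y k j * v) = 0 := by
      by_contra hcon
      have hcon' : ∀ᶠ j in (Filter.hyperfilter ℕ : Filter ℕ), ∃ f, ¬ ∀ u v : L j,
          Fval (d f) (mA (base (Y j)) f) (fun k => p k j * u + y k j * v) = 0 := by
        filter_upwards [Ultrafilter.eventually_not.mpr hcon] with j hj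
        push Not at hj ⊢
        exact hj
      obtain ⟨f, hf⟩ := ultra_exists hcon'
      have h3 : ∀ j, ∃ u v : L j, (¬ ∀ u v : L j,
          Fval (d f) (mA (base (Y j)) f) (fun k => p k j * u + y k j * v) = 0) →
          Fval (d f) (mA (base (Y j)) f) (fun k => p k j * u + y k j * v) ≠ 0 := by
        intro j
        by_cases hj : ∀ u v : L j, Fval (d f) (mA (base (Y j)) f)
            (fun k => p k j * u + y k j * v) = 0
        · exact ⟨0, 0, fun h => absurd hj h⟩
        · push Not at hj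
          obtain ⟨u, v, huv⟩ := hj
          exact ⟨u, v, fun _ => huv⟩
      choose u v huv using h3
      have h4 := hz f (mkU φ u) (mkU φ v)
      have e1 : (fun k => pM k * mkU φ u + z k * mkU φ v) =
          fun k => mkU φ (fun j => p k j * u j + y k j * v j) := by
        funext k
        rw [← hy k, hpM, ← map_mul, ← map_mul, ← map_add]
        rfl
      rw [e1, Fval_YV φ Y f (fun k j => p k j * u j + y k j * v j), mkU_eq_zero] at h4
      obtain ⟨j, h5, h6⟩ := (h4.and hf).exists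
      exact huv j h6 h5
    filter_upwards [h1, h2] with j h3 h4
    exact ⟨fun k => y k j, ⟨i, k, h3⟩, h4⟩

end Alt

end Pool.Agent.Lib.MP_44a246_ntV
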