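import Mathlib
import Pool.Agent.Lib.MP_44a246_ntB.SeqB
import Pool.Agent.Lib.MP_44a246_ntV.VSetup
import Pool.Agent.Lib.MP_44a246_ntV.VAlt

/-!
From local bounds with varying derivations to uniform height bounds.
-/

namespace Pool.Agent.Lib.MP_44a246_ntV

open Pool.Agent.Lib.MP_e52354_nt
open Pool.Agent.Lib.MP_e52354_ntG
open Pool.Agent.Lib.MP_44a246_nt
open Pool.Agent.Lib.MP_44a246_ntL
open Pool.Agent.Lib.MP_44a246_ntB
open WithZero

universe w u₁ u₂

/-- data of `L` coming from `K`, with bounds for the poles -/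
structure HSV {κ K L ι : Type*} [Field κ] [Field K] [Algebra κ K] [Field L] [Algebra K L]
    [DecidableEq ι] (aK : ι → K) (DK : ι → Derivation ℤ K K) (Y : DData ι Empty L)
    (B A : Place κ K → ℕ) : Prop where
  ha : ∀ i, Y.a i = algebraMap K L (aK i)
  hD : ∀ i y, Y.D i (algebraMap K L y) = algebraMap K L (DK i y)
  hB : ∀ i, PoleBound κ (DK i) B
  hA : ∀ i v, v.1 (aK i) ≤ exp (A v : ℤ)

section Height

variable {κ K : Type*} [Field κ] [IsAlgClosed κ] [CharZero κ] [Field K] [Algebra κ K]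
  {L : Type*} [Field L] [Algebra κ L] [Algebra K L] [IsScalarTower κ K L] [FiniteDimensional K L]
  {ι : Type*} [DecidableEq ι] {aK : ι → K} {DK : ι → Derivation ℤ K K} {Y : DData ι Empty L}
  {B A : Place κ K → ℕ} {s : ℕ}

/-- heights from local bounds -/
theorem height_of_localBound {t : K} (ht : Transcendental κ t)
    (hfin : FiniteDimensional (IntermediateField.adjoin κ {t}) K) {E₀ : Derivation ℤ K K}
    (hE₀ : ∀ c : κ, E₀ (algebraMap κ K c) = 0) (hE₀t : E₀ t = 1) (hPE : PoleBound κ E₀ B)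
    (hX : HSV (κ := κ) aK DK Y B A)
    (hB : (Function.support B).Finite) (hA : (Function.support A).Finite)
    {p : Fin s → L} (hp : p ≠ 0) {J : L} (hJ : J ≠ 0) {c e : ℕ} (he : 0 < e)
    (hL : LocalBound Y p c e J) :
    height κ p ≤ (c : ℤ) * ((∑ᶠ v, (totB B A ∅ v : ℤ)) * Module.finrank K L +
      (ramDeg κ L K : ℤ)) := by
  classical
  have hcK : CharZero K := charZero_of_injective_algebraMap (algebraMap κ K).injective
  have hK : IsFF κ K := ⟨t, ht, hfin⟩
  have hff : IsFF κ L := hK.of_finite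
  have halg : Algebra.IsAlgebraic (IntermediateField.adjoin κ {t}) K :=
    Algebra.IsAlgebraic.of_finite _ _
  obtain ⟨E₀L, hE₀L⟩ := exists_extension (K := K) (L := L) E₀
  have hHS : HS (κ := κ) aK (fun o : Option ι => o.elim E₀ DK) (fun o : Option ι => o.elim E₀L Y.D)
      none B A :=
    { hD := by
        rintro (_ | i) y
        · exact hE₀L y
        · exact hX.hD i y
      hB := by
        rintro (_ | i)
        · exact hPE
        · exact hX.hB i
      hA := hX.hA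
      hk := fun y hy => const_of_ddt (Λ := L) ht halg hE₀ hE₀t hE₀L hy }
  have h1 := height_of_LBF (S := ∅) hff hHS hB hA hp (z := 1) one_ne_zero (d := 0) (fun w => by
      rw [map_one, pow_zero, mul_one]
      have h0 : exp (0 : ℤ) ≤ exp (((ramIdx K w.1 * A (below K w) : ℕ)) : ℤ) :=
        exp_le_exp.mpr (Int.natCast_nonneg _)
      exact h0) Set.finite_empty hJ he (by
      intro O δ l hAd
      refine hL O δ hAd.hval hAd.hδ (fun i y hy => hAd.hDO (some i) y hy) (fun i => ?_)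
        (fun g => g.elim) l hAd.hl hAd.hp
      rw [hX.ha]
      exact hAd.ha i)
  have h2 : (meetF (κ := κ) 0 p (1 : L) (∅ : Set (Place κ K))) = ∅ := by
    ext w
    unfold meetF
    rw [Set.mem_ofPred_eq, pow_zero, map_one]
    simp
  rw [h2, Set.ncard_empty] at h1
  simpa using h1

end Height

section Seq

variable {κ : Type u₁} {K : Type u₂} [Field κ] [IsAlgClosed κ] [CharZero κ] [Field K]
  [Algebra κ K] {s : ℕ} {ι : Type*} [DecidableEq ι]

/-- uniform bounds from sequences of points, one of whose coordinates is one -/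
theorem seq_boundV {t : K} (ht : Transcendental κ t)
    (hfin : FiniteDimensional (IntermediateField.adjoin κ {t}) K) {E₀ : Derivation ℤ K K}
    (hE₀ : ∀ c : κ, E₀ (algebraMap κ K c) = 0) (hE₀t : E₀ t = 1)
    {B A : Place κ K → ℕ} (hPE : PoleBound κ E₀ B)
    (hB : (Function.support B).Finite) (hA : (Function.support A).Finite)
    (Good Exc : PtL.{w} κ K (Fin s) → Prop)
    (Y : ∀ P : PtL.{w} κ K (Fin s), Good P → DData ι Empty P.L)
    (hX : ∀ (P : PtL.{w} κ K (Fin s)) (hP : Good P), ∃ (aK : ι → K)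
      (DK : ι → Derivation ℤ K K), HSV (κ := κ) aK DK (Y P hP) B A) (l : Fin s)
    (key : ∀ (P : ℕ → PtL.{w} κ K (Fin s)) (hG : ∀ j, Good (P j)), (∀ j, (P j).x l = 1) →
      (∃ (c e : ℕ) (J : ∀ j, (P j).L), 0 < e ∧
        ∀ᶠ j in (Filter.hyperfilter ℕ : Filter ℕ), J j ≠ 0 ∧
          LocalBound (Y (P j) (hG j)) (P j).x c e (J j)) ∨
      ∀ᶠ j in (Filter.hyperfilter ℕ : Filter ℕ), Exc (P j)) :
    ∃ C : ℕ, ∀ P : PtL.{w} κ K (Fin s), Good P → P.x l = 1 →
      height κ P.x ≤ (C : ℤ) * ((ramDeg κ P.L K : ℤ) + (Module.finrank K P.L : ℤ)) ∨ Exc P := by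
  classical
  by_contra hcon
  push Not at hcon
  choose P hG hl hh hE using hcon
  rcases key P hG hl with ⟨c, e, J, he, hJ⟩ | hexc
  · set D₀ := (∑ᶠ v, (totB B A ∅ v : ℤ)).toNat with hD₀
    have hD₀' : (∑ᶠ v, (totB B A ∅ v : ℤ)) ≤ (D₀ : ℤ) := Int.self_le_toNat _
    have hge : ∀ᶠ j in (Filter.hyperfilter ℕ : Filter ℕ), c * (D₀ + 1) ≤ j := by
      have h1 : ∀ᶠ j in (Filter.atTop : Filter ℕ), c * (D₀ + 1) ≤ j :=
        Filter.eventually_ge_atTop _
      rw [← Nat.cofinite_eq_atTop] at h1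
      exact Filter.hyperfilter_le_cofinite h1
    obtain ⟨j, ⟨hJ0, hLB⟩, hj⟩ := (hJ.and hge).exists
    have hp0 : (P j).x ≠ 0 := by
      intro h0
      have h1 := congrFun h0 l
      rw [hl j] at h1
      exact one_ne_zero h1
    obtain ⟨aK, DK, hXj⟩ := hX (P j) (hG j)
    have h1 := height_of_localBound ht hfin hE₀ hE₀t hPE hXj hB hA hp0 hJ0 he hLB
    have h2 := hh j
    set R : ℤ := (ramDeg κ (P j).L K : ℤ) with hR
    have hR0 : 0 ≤ R := Int.natCast_nonneg _
    set n : ℤ := (Module.finrank K (P j).L : ℤ) with hn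
    have hn0 : 0 ≤ n := Int.natCast_nonneg _
    have hbase : (∑ᶠ v, (totB B A ∅ v : ℤ)) * n + R ≤ (D₀ + 1 : ℤ) * (R + n) := by
      have h1 : (∑ᶠ v, (totB B A ∅ v : ℤ)) * n ≤ (D₀ : ℤ) * n :=
        mul_le_mul_of_nonneg_right hD₀' hn0
      have h2 : (0 : ℤ) ≤ D₀ := Int.natCast_nonneg _
      nlinarith [mul_nonneg h2 hR0]
    have hc0 : (0 : ℤ) ≤ c := Int.natCast_nonneg _
    have hRn : 0 ≤ R + n := by linarith
    have hj' : (c : ℤ) * (D₀ + 1) ≤ j := by exact_mod_cast hj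
    have h3 : height κ (P j).x ≤ (j : ℤ) * (R + n) :=
      calc height κ (P j).x ≤ (c : ℤ) * ((D₀ + 1 : ℤ) * (R + n)) :=
            h1.trans (mul_le_mul_of_nonneg_left hbase hc0)
        _ = ((c : ℤ) * (D₀ + 1)) * (R + n) := by ring
        _ ≤ (j : ℤ) * (R + n) := mul_le_mul_of_nonneg_right hj' hRn
    exact absurd h3 (not_le.mpr h2)
  · obtain ⟨j, hj⟩ := hexc.exists
    exact hE j hj

end Seq

end Pool.Agent.Lib.MP_44a246_ntV
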