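import Mathlib
import Pool.Agent.Lib.MP_44a246_ntV.VSeq
import Pool.Agent.Lib.MP_44a246_ntT.TMain

/-!
Points of complete intersections with a derivation killing the coefficients but not the point:
uniform height bounds from a local theorem.
-/

namespace Pool.Agent.Lib.MP_44a246_ntV

open Pool.Agent.Lib.MP_e52354_nt
open Pool.Agent.Lib.MP_e52354_ntG
open Pool.Agent.Lib.MP_e52354_ntI
open Pool.Agent.Lib.MP_44a246_nt
open Pool.Agent.Lib.MP_44a246_ntL
open Pool.Agent.Lib.MP_44a246_ntB
open Pool.Agent.Lib.MP_44a246_ntT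
open Pool.Agent.Lib.MP_44a246_ntH
open WithZero

universe w u₁ u₂

section Data

variable {κ : Type u₁} {K : Type u₂} [Field κ] [Field K] [CharZero K] [Algebra κ K]
  {s q : ℕ} {d : Fin q → ℕ} {T : Type*} [DecidableEq T]

/-- the derivations of the base field -/
structure KData (κ : Type u₁) (K : Type u₂) [Field κ] [Field K] [CharZero K] [Algebra κ K]
    (s q : ℕ) (d : Fin q → ℕ) (T : Type*) [DecidableEq T] where
  /-- the coefficients -/
  aK : MIdx s q d → K
  /-- the other elements of the basis -/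
  z : T → K
  /-- the derivations dual to the coefficients -/
  DK : MIdx s q d → Derivation ℚ K K
  /-- the derivations dual to the other elements -/
  E : T → Derivation ℚ K K
  hD : ∀ I J, DK I (aK J) = if I = J then 1 else 0
  hDz : ∀ I b, DK I (z b) = 0
  hEa : ∀ b I, E b (aK I) = 0
  hEz : ∀ b b', E b (z b') = if b = b' then 1 else 0
  hcomm : ∀ I J y, DK I (DK J y) = DK J (DK I y)
  hcommE : ∀ I b y, DK I (E b y) = E b (DK I y)
  halg : Algebra.IsAlgebraic (IntermediateField.adjoin ℚ (Set.range aK ∪ Set.range z)) K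

namespace KData

variable (k : KData κ K s q d T) (L : Type w) [Field L] [Algebra K L] [Algebra.IsAlgebraic K L]

/-- the extensions to an algebraic extension -/
noncomputable def DL (I : MIdx s q d) : Derivation ℤ L L :=
  (exists_extension (K := K) (L := L) (derZ (k.DK I))).choose

theorem DL_spec (I : MIdx s q d) (y : K) :
    k.DL L I (algebraMap K L y) = algebraMap K L (k.DK I y) :=
  (exists_extension (K := K) (L := L) (derZ (k.DK I))).choose_spec y

/-- the extensions to an algebraic extension -/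
noncomputable def EL (b : T) : Derivation ℤ L L :=
  (exists_extension (K := K) (L := L) (derZ (k.E b))).choose

theorem EL_spec (b : T) (y : K) :
    k.EL L b (algebraMap K L y) = algebraMap K L (k.E b y) :=
  (exists_extension (K := K) (L := L) (derZ (k.E b))).choose_spec y

/-- the data of an algebraic extension given by one of the further derivations -/
noncomputable def Yb (b : T) : DData (Option (MIdx s q d)) Empty L where
  a o := algebraMap K L (o.elim (k.z b) k.aK)
  b g := g.elim
  D o := o.elim (k.EL L b) (k.DL L)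
  hD I J := by
    rcases I with _ | I <;> rcases J with _ | J
    · show k.EL L b (algebraMap K L (k.z b)) = _
      rw [k.EL_spec, k.hEz, if_pos rfl, if_pos rfl, map_one]
    · show k.EL L b (algebraMap K L (k.aK J)) = _
      rw [k.EL_spec, k.hEa, if_neg (by simp), map_zero]
    · show k.DL L I (algebraMap K L (k.z b)) = _
      rw [k.DL_spec, k.hDz, if_neg (by simp), map_zero]
    · show k.DL L I (algebraMap K L (k.aK J)) = _
      rw [k.DL_spec, k.hD]
      simp only [Option.some_inj]
      split_ifs <;> simp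
  hb _ g := g.elim
  hcomm I J y := by
    rcases I with _ | I <;> rcases J with _ | J
    · rfl
    · exact (Pool.Agent.Lib.MP_44a246_ntT.ext_comm (D₁ := derZ (k.DK J)) (D₂ := derZ (k.E b)) (k.hcommE J b) (k.DL_spec L J)
        (k.EL_spec L b) y).symm
    · exact Pool.Agent.Lib.MP_44a246_ntT.ext_comm (D₁ := derZ (k.DK I)) (D₂ := derZ (k.E b)) (k.hcommE I b) (k.DL_spec L I)
        (k.EL_spec L b) y
    · exact Pool.Agent.Lib.MP_44a246_ntT.ext_comm (D₁ := derZ (k.DK I)) (D₂ := derZ (k.DK J)) (k.hcomm I J) (k.DL_spec L I)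
        (k.DL_spec L J) y

theorem hsv {B A : Place κ K → ℕ} (hPD : ∀ I, PoleBound κ (derZ (k.DK I)) B)
    (hPE : ∀ b, PoleBound κ (derZ (k.E b)) B) (hPa : ∀ I v, v.1 (k.aK I) ≤ exp (A v : ℤ))
    (hPz : ∀ b v, v.1 (k.z b) ≤ exp (A v : ℤ)) (b : T) :
    HSV (κ := κ) (fun o : Option (MIdx s q d) => o.elim (k.z b) k.aK)
      (fun o => o.elim (derZ (k.E b)) (fun I => derZ (k.DK I))) (k.Yb L b) B A where
  ha := fun _ => rfl
  hD := by
    rintro (_ | I) y
    · exact k.EL_spec L b y
    · exact k.DL_spec L I y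
  hB := by
    rintro (_ | I)
    · exact hPE b
    · exact hPD I
  hA := by
    rintro (_ | I) v
    · exact hPz b v
    · exact hPa I v

theorem mA_Yb (b : T) (j : Fin q) {I : Fin s →₀ ℕ} (hI : I ∈ expo (Fin s) (d j)) :
    mA (base (k.Yb L b)) j I = algebraMap K L (k.aK ⟨j, I, hI⟩) := by
  unfold mA
  rw [dif_pos hI]
  rfl

/-- one of the further derivations does not kill a point which has a derivation killing the
coefficients and not the point -/
theorem exists_b {x : Fin s → L} {G : Derivation ℤ L L}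
    (hG : ∀ I, G (algebraMap K L (k.aK I)) = 0) {i : Fin s} (hi : G (x i) ≠ 0) :
    ∃ b, ∃ i, k.EL L b (x i) ≠ 0 := by
  classical
  by_contra hcon
  push Not at hcon
  have hcL : CharZero L := charZero_of_injective_algebraMap (algebraMap K L).injective
  have hsc : IsScalarTower ℚ K L := inferInstance
  have hr : Set.range (Sum.elim k.aK k.z) = Set.range k.aK ∪ Set.range k.z := Set.Sum.elim_range _ _
  have halg := k.halg
  rw [← hr] at halg
  obtain ⟨S, hS⟩ := density (k₀ := ℚ) halg (Sum.elim (k.DL L) (k.EL L)) (fun b c => by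
      rw [IsScalarTower.algebraMap_apply ℚ K L]
      rcases b with I | b
      · show k.DL L I (algebraMap K L (algebraMap ℚ K c)) = 0
        rw [k.DL_spec, Derivation.map_algebraMap, map_zero]
      · show k.EL L b (algebraMap K L (algebraMap ℚ K c)) = 0
        rw [k.EL_spec, Derivation.map_algebraMap, map_zero]) (fun b b' => by
      rcases b with I | b <;> rcases b' with J | b'
      · show k.DL L I (algebraMap K L (k.aK J)) = _
        rw [k.DL_spec, k.hD]
        simp only [Sum.inl.injEq]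
        split_ifs <;> simp
      · show k.DL L I (algebraMap K L (k.z b')) = _
        rw [k.DL_spec, k.hDz, if_neg (by simp), map_zero]
      · show k.EL L b (algebraMap K L (k.aK J)) = _
        rw [k.EL_spec, k.hEa, if_neg (by simp), map_zero]
      · show k.EL L b (algebraMap K L (k.z b')) = _
        rw [k.EL_spec, k.hEz]
        simp only [Sum.inr.injEq]
        split_ifs <;> simp) G (fun c => der_rat G c) {x i}
  apply hi
  rw [hS (x i) (Finset.mem_singleton_self _)]
  refine Finset.sum_eq_zero fun b _ => ?_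
  rcases b with I | b
  · show G (algebraMap K L (k.aK I)) * _ = 0
    rw [hG, zero_mul]
  · show _ * k.EL L b (x i) = 0
    rw [hcon b i, mul_zero]

end KData

end Data

section Main

variable {κ : Type u₁} {K : Type u₂} [Field κ] [IsAlgClosed κ] [CharZero κ] [Field K]
  [CharZero K] [Algebra κ K]

theorem mainV_l {t : K} (ht : Transcendental κ t)
    (hfin : FiniteDimensional (IntermediateField.adjoin κ {t}) K) {n q : ℕ} {d : Fin q → ℕ}
    (a : Fin q → (Fin (n + 1) →₀ ℕ) → K)
    (hc : AlgebraicIndependent ℚ (fun θ : MIdx (n + 1) q d => a θ.1 θ.2.1)) {Num : Prop}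
    (hloc : ∀ (M : Type u₂) [Field M] [CharZero M]
      (Y : DData (Option (MIdx (n + 1) q d)) Empty M) (p : Fin (n + 1) → M) (l : Fin (n + 1)),
      p l = 1 → (∀ f, Fval (d f) (mA (base Y) f) p = 0) → Ev Y p ≠ 0 →
      (∃ (c e : ℕ) (J : M), 0 < e ∧ J ≠ 0 ∧ LocalBound Y p c e J) ∨
        (Num ∧ MOnLine d (mA (base Y)) p)) (l : Fin (n + 1)) :
    ∃ C : ℕ, ∀ P : PtL.{w} κ K (Fin (n + 1)),
      (∀ j, Fval (d j) (fun I => algebraMap K P.L (a j I)) P.x = 0) → P.x l = 1 →
      (∃ G : Derivation ℤ P.L P.L, (∀ j, ∀ I ∈ expo (Fin (n + 1)) (d j),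
        G (algebraMap K P.L (a j I)) = 0) ∧ ∃ i, G (P.x i) ≠ 0) →
      height κ P.x ≤ (C : ℤ) * ((ramDeg κ P.L K : ℤ) + (Module.finrank K P.L : ℤ)) ∨
        (Num ∧ ∃ y : Fin (n + 1) → P.L, (∃ i k, P.x i * y k - P.x k * y i ≠ 0) ∧
          ∀ f, ∀ u v : P.L, Fval (d f) (fun I => algebraMap K P.L (a f I))
            (fun k => P.x k * u + y k * v) = 0) := by
  classical
  have hsct : IsScalarTower ℚ κ K := inferInstance
  have halg : Algebra.IsAlgebraic (IntermediateField.adjoin κ {t}) K :=
    Algebra.IsAlgebraic.of_finite _ _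
  obtain ⟨T, iT, z, E, DK, B₁, A, hB₁, hA, hPD, hPE, hPa, hPz, hD, hDz, hEa, hEz, hcomm, hcommE,
    hgen⟩ := exists_setupV (k₀ := ℚ) ht hfin hc
  let k : KData κ K (n + 1) q d T := ⟨fun θ => a θ.1 θ.2.1, z, DK, E, hD, hDz, hEa, hEz, hcomm,
    hcommE, hgen⟩
  obtain ⟨E₀, hE₀, hE₀t⟩ := exists_ddt ht halg
  obtain ⟨B₂, hB₂, hPE₀⟩ := exists_poleBound ht hfin E₀ (fun c => ⟨0, by rw [hE₀, map_zero]⟩)
        ⟨1, by rw [hE₀t, map_one]⟩
  -- a common bound
  let B : Place κ K → ℕ := fun v => B₁ v + B₂ v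
  have hB : (Function.support B).Finite := by
    refine (hB₁.union hB₂).subset fun v hv => ?_
    by_contra hcon
    rw [Set.mem_union, not_or, Function.mem_support, Function.mem_support, not_not, not_not] at hcon
    apply hv
    show B₁ v + B₂ v = 0
    rw [hcon.1, hcon.2, add_zero]
  have hup1 : ∀ {D : Derivation ℤ K K}, PoleBound κ D B₁ → PoleBound κ D B := by
    intro D h v y hy
    refine (h v y hy).trans (exp_le_exp.mpr ?_)
    show (B₁ v : ℤ) ≤ ((B₁ v + B₂ v : ℕ) : ℤ)
    push_cast
    have : (0 : ℤ) ≤ B₂ v := Int.natCast_nonneg _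
    linarith
  have hup2 : ∀ {D : Derivation ℤ K K}, PoleBound κ D B₂ → PoleBound κ D B := by
    intro D h v y hy
    refine (h v y hy).trans (exp_le_exp.mpr ?_)
    show (B₂ v : ℤ) ≤ ((B₁ v + B₂ v : ℕ) : ℤ)
    push_cast
    have : (0 : ℤ) ≤ B₁ v := Int.natCast_nonneg _
    linarith
  let Good : PtL.{w} κ K (Fin (n + 1)) → Prop := fun P =>
    (∀ j, Fval (d j) (fun I => algebraMap K P.L (a j I)) P.x = 0) ∧
      ∃ b, ∃ i, k.EL P.L b (P.x i) ≠ 0
  let Exc : PtL.{w} κ K (Fin (n + 1)) → Prop := fun P =>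
    Num ∧ ∃ y : Fin (n + 1) → P.L, (∃ i k, P.x i * y k - P.x k * y i ≠ 0) ∧
          ∀ f, ∀ u v : P.L, Fval (d f) (fun I => algebraMap K P.L (a f I))
            (fun k => P.x k * u + y k * v) = 0
  have hFc : ∀ (P : PtL.{w} κ K (Fin (n + 1))) (b : T) (f : Fin q) (x : Fin (n + 1) → P.L),
      Fval (d f) (mA (base (k.Yb P.L b)) f) x = Fval (d f) (fun I => algebraMap K P.L (a f I)) x := by
    intro P b f x
    unfold Fval
    refine Finset.sum_congr rfl fun I hI => ?_
    rw [k.mA_Yb P.L b f hI]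
  obtain ⟨C, hC⟩ := seq_boundV.{w} (B := B) (A := A) ht hfin hE₀ hE₀t (hup2 hPE₀) hB hA Good Exc
    (fun P hP => k.Yb P.L hP.2.choose) (fun P hP => ⟨_, _, k.hsv P.L (fun I => hup1 (hPD I))
      (fun b => hup1 (hPE b)) hPa hPz _⟩) l (by
    intro P hG hl
    have hφ : ∀ j, Nonempty ((P j).L →ₐ[K] AlgebraicClosure K) := fun j =>
      ⟨IsAlgClosed.lift⟩
    rcases ultra_alt (φ := fun j => (((hφ j).some : (P j).L →ₐ[K] AlgebraicClosure K) :
        (P j).L →+* AlgebraicClosure K)) (Y := fun j => k.Yb (P j).L (hG j).2.choose)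
        (Num := Num) (l := l) (fun Y' p' h1 h2 h3 => by
          have hcU : CharZero (UP (AlgebraicClosure K)) :=
            charZero_of_injective_ringHom (constHom (L := AlgebraicClosure K)).injective
          exact hloc _ Y' p' l h1 h2 h3) (fun k j => (P j).x k) hl (fun j f => by
          rw [hFc]
          exact (hG j).1 f) (fun j => (hG j).2.choose_spec) with ⟨c, e, J, he, hJ⟩ | ⟨hnum, hexc⟩
    · exact Or.inl ⟨c, e, J, he, hJ⟩
    · right
      filter_upwards [hexc] with j hj
      obtain ⟨y, hy, hz⟩ := hj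
      refine ⟨hnum, y, hy, fun f u v => ?_⟩
      rw [← hFc (P j) (hG j).2.choose]
      exact hz f u v)
  refine ⟨C, ?_⟩
  rintro P hF hl ⟨G, hG, i, hi⟩
  exact hC P ⟨hF, k.exists_b P.L (G := G) (fun I => hG I.1 I.2.1 I.2.2) hi⟩ hl

/-- Uniform height bounds for the points of a complete intersection which are transcendental over
the field of the coefficients. -/
theorem mainV {t : K} (ht : Transcendental κ t)
    (hfin : FiniteDimensional (IntermediateField.adjoin κ {t}) K) {n q : ℕ} {d : Fin q → ℕ}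
    (a : Fin q → (Fin (n + 1) →₀ ℕ) → K)
    (hc : AlgebraicIndependent ℚ (fun θ : MIdx (n + 1) q d => a θ.1 θ.2.1))
    (k₁ : IntermediateField ℚ K) (hk₁ : ∀ j, ∀ I ∈ expo (Fin (n + 1)) (d j), a j I ∈ k₁)
    {Num : Prop}
    (hloc : ∀ (M : Type u₂) [Field M] [CharZero M]
      (Y : DData (Option (MIdx (n + 1) q d)) Empty M) (p : Fin (n + 1) → M) (l : Fin (n + 1)),
      p l = 1 → (∀ f, Fval (d f) (mA (base Y) f) p = 0) → Ev Y p ≠ 0 →
      (∃ (c e : ℕ) (J : M), 0 < e ∧ J ≠ 0 ∧ LocalBound Y p c e J) ∨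
        (Num ∧ MOnLine d (mA (base Y)) p)) :
    ∃ C : ℕ, ∀ (L : Type w) [Field L] [Algebra κ L] [Algebra K L] [IsScalarTower κ K L]
      [FiniteDimensional K L] (x : Fin (n + 1) → L), x ≠ 0 →
      (∀ j, Fval (d j) (fun I => algebraMap K L (a j I)) x = 0) →
      (1 : Cardinal) ≤ Algebra.trdeg k₁ (pointField k₁ x) →
      height κ x ≤ (C : ℤ) * ((ramDeg κ L K : ℤ) + (Module.finrank K L : ℤ)) ∨
        (Num ∧ ∃ y : Fin (n + 1) → L, (∃ i j, plu x y i j ≠ 0) ∧
          ∀ f, ∀ u v : L, Fval (d f) (fun I => algebraMap K L (a f I))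
            (fun k => x k * u + y k * v) = 0) := by
  classical
  have hK : IsFF κ K := ⟨t, ht, hfin⟩
  have hsct : IsScalarTower ℚ κ K := inferInstance
  choose C hC using fun l => mainV_l.{w} ht hfin a hc hloc l
  refine ⟨∑ l, C l, ?_⟩
  intro L _ _ _ _ _ x hx hF htr
  have hcL : CharZero L := charZero_of_injective_algebraMap (algebraMap K L).injective
  have hck₁ : CharZero k₁ := charZero_of_injective_algebraMap (algebraMap ℚ k₁).injective
  obtain ⟨l, hl⟩ : ∃ l, x l ≠ 0 := by
    by_contra hcon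
    push Not at hcon
    exact hx (funext hcon)
  set x' : Fin (n + 1) → L := fun i => (x l)⁻¹ * x i with hx'
  have hx'l : x' l = 1 := inv_mul_cancel₀ hl
  have hF' : ∀ j, Fval (d j) (fun I => algebraMap K L (a j I)) x' = 0 := by
    intro j
    rw [hx', Fval_smul', hF, mul_zero]
  have hpf : pointField k₁ x' = pointField k₁ x := by
    unfold pointField
    congr 1
    ext y
    simp only [Set.mem_ofPred_eq]
    constructor
    · rintro ⟨i, j, rfl⟩
      refine ⟨i, j, ?_⟩
      simp only [hx']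
      rw [mul_div_mul_left _ _ (inv_ne_zero hl)]
    · rintro ⟨i, j, rfl⟩
      refine ⟨i, j, ?_⟩
      simp only [hx']
      rw [mul_div_mul_left _ _ (inv_ne_zero hl)]
  obtain ⟨Ev, hEv1, hEv2⟩ := exists_indep_der (k₁ := k₁) hx'l (τ := 1) (by
    rw [hpf, Nat.cast_one]; exact htr)
  have hne : ∃ i, Ev 0 (x' i) ≠ 0 := by
    by_contra hcon
    push Not at hcon
    exact hEv2.ne_zero 0 (funext hcon)
  have hL : IsFF κ L := hK.of_finite
  have hh : height κ x' = height κ x := hL.height_smul (inv_ne_zero hl)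
  have h2 : C l ≤ ∑ l, C l := Finset.single_le_sum (fun _ _ => Nat.zero_le _) (Finset.mem_univ l)
  rcases hC l ⟨L, x'⟩ hF' hx'l ⟨Ev 0, fun j I hI => hEv1 0 ⟨a j I, hk₁ j I hI⟩, hne⟩ with
    h1 | ⟨h0, y, ⟨i, k, hik⟩, hz⟩
  · left
    rw [hh] at h1
    refine h1.trans (mul_le_mul_of_nonneg_right ?_ (by positivity))
    exact_mod_cast h2
  · right
    have hik' : x' i * y k - x' k * y i ≠ 0 := hik
    refine ⟨h0, y, ⟨i, k, ?_⟩, fun f u v => ?_⟩
    · intro h2
      apply hik'
      have h3 : x' i * y k - x' k * y i = (x l)⁻¹ * (x i * y k - x k * y i) := by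
        simp only [hx']
        ring
      rw [h3]
      have h4 : plu x y i k = x i * y k - x k * y i := rfl
      rw [← h4, h2, mul_zero]
    · have h3 : Fval (d f) (fun I => algebraMap K L (a f I))
          (fun k => x' k * (x l * u) + y k * v) = 0 := hz f (x l * u) v
      rw [← h3]
      congr 1
      funext k
      simp only [hx']
      field_simp

end Main

end Pool.Agent.Lib.MP_44a246_ntV
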