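import Mathlib
import Pool.Agent.Lib.MP_44a246_ntT.TPoly
import Pool.Agent.Lib.MP_44a246_ntV.VMain

/-!
The global statement on the border for forms given as polynomials.
-/

namespace Pool.Agent.Lib.MP_44a246_ntV

open Pool.Agent.Lib.MP_e52354_nt Pool.Agent.Lib.MP_e52354_ntP Pool.Agent.Lib.MP_e52354_ntG
open Pool.Agent.Lib.MP_e52354_ntW Pool.Agent.Lib.MP_e52354_ntI
open Pool.Agent.Lib.MP_44a246_nt Pool.Agent.Lib.MP_44a246_ntT Pool.Agent.Lib.MP_44a246_ntL
open Pool.Agent.Lib.MP_44a246_ntB Pool.Agent.Lib.MP_44a246_ntH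
open WithZero

universe w u₁ u₂

theorem poly_V {κ : Type u₁} {K : Type u₂} [Field κ] [IsAlgClosed κ] [CharZero κ] [Field K]
    [CharZero K] [Algebra κ K] {t : K} (ht : Transcendental κ t)
    [FiniteDimensional (IntermediateField.adjoin κ {t}) K] {n q : ℕ} (d : Fin q → ℕ)
    (F : Fin q → MvPolynomial (Fin (n + 1)) K)
    (hF : ∀ i, (F i).IsHomogeneous (d i))
    (hgen : AlgebraicIndependent ℚ
      (fun θ : Σ i, {I : Fin (n + 1) →₀ ℕ // I.degree = d i} => (F θ.1).coeff θ.2.1))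
    {Num : Prop}
    (hloc : ∀ (M : Type u₂) [Field M] [CharZero M]
      (Y : DData (Option (MIdx (n + 1) q d)) Empty M) (p : Fin (n + 1) → M) (l : Fin (n + 1)),
      p l = 1 → (∀ f, Fval (d f) (mA (base Y) f) p = 0) → Ev Y p ≠ 0 →
      (∃ (c e : ℕ) (J : M), 0 < e ∧ J ≠ 0 ∧ LocalBound Y p c e J) ∨
        (Num ∧ MOnLine d (mA (base Y)) p)) :
    ∃ C : ℕ, ∀ (L : Type w) [Field L] [Algebra K L] [FiniteDimensional K L] [Algebra κ L]
      [IsScalarTower κ K L] (x : Fin (n + 1) → L), x ≠ 0 →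
      (1 : Cardinal) ≤ Algebra.trdeg (coefField F) (pointField (coefField F) x) →
      (∀ i, MvPolynomial.aeval x (F i) = 0) →
      height κ x ≤ C * ((ramDeg κ L K : ℤ) + Module.finrank K L) ∨
      (Num ∧ ∃ y : Fin (n + 1) → L, LinearIndependent L ![x, y] ∧
          (∀ i, ∀ u v : L, MvPolynomial.aeval (fun j => u * x j + v * y j) (F i) = 0)) := by
  classical
  have hQ : IsScalarTower ℚ κ K := inferInstance
  let a : Fin q → (Fin (n + 1) →₀ ℕ) → K := fun i I => (F i).coeff I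
  have hc : AlgebraicIndependent ℚ (fun θ : MIdx (n + 1) q d => a θ.1 θ.2.1) := by
    have h1 : (fun θ : MIdx (n + 1) q d => a θ.1 θ.2.1) =
        (fun θ : Σ i, {I : Fin (n + 1) →₀ ℕ // I.degree = d i} => (F θ.1).coeff θ.2.1) ∘
        (fun θ : MIdx (n + 1) q d => ⟨θ.1, ⟨θ.2.1, mem_expo.mp θ.2.2⟩⟩) := rfl
    rw [h1]
    apply hgen.comp
    rintro ⟨i, I, h⟩ ⟨i', I', h'⟩ heq
    simp only [Sigma.mk.injEq] at heq
    obtain ⟨h1, h2⟩ := heq
    subst h1
    simp only [heq_eq_eq, Subtype.mk.injEq] at h2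
    subst h2
    rfl
  obtain ⟨C, hC⟩ := mainV.{w} ht inferInstance a hc (coefField F)
    (fun j I _ => IntermediateField.subset_adjoin _ _ ⟨j, I, rfl⟩) hloc
  refine ⟨C, ?_⟩
  intro L _ _ _ _ _ x hx hτ h0
  have hev : ∀ i, ∀ z : Fin (n + 1) → L, MvPolynomial.aeval z (F i) =
      Fval (d i) (fun I => algebraMap K L (a i I)) z := fun i z => aeval_eq_Fval (F i) (hF i) z
  rcases hC L x hx (fun i => by rw [← hev]; exact h0 i) hτ with h | ⟨hnum, y, hy, hz⟩
  · left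
    exact h
  · right
    refine ⟨hnum, y, linInd_of_plu hy, fun f u v => ?_⟩
    rw [hev]
    have h1 := hz f u v
    rw [← h1]
    congr 1
    funext j
    ring

end Pool.Agent.Lib.MP_44a246_ntV
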