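import Mathlib
import Pool.Agent.Lib.MP_44a246_ntV.VPoly
import Pool.Agent.Lib.MP_44a246_ntH.HF11

/-!
The border for one form: points with a derivation killing the coefficients but not the point.
-/

namespace Pool.Agent.Lib.MP_44a246_ntV

open Pool.Agent.Lib.MP_e52354_nt Pool.Agent.Lib.MP_e52354_ntP Pool.Agent.Lib.MP_e52354_ntG
open Pool.Agent.Lib.MP_e52354_ntW Pool.Agent.Lib.MP_e52354_ntI
open Pool.Agent.Lib.MP_44a246_nt Pool.Agent.Lib.MP_44a246_ntT Pool.Agent.Lib.MP_44a246_ntL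
open Pool.Agent.Lib.MP_44a246_ntB Pool.Agent.Lib.MP_44a246_ntH
open WithZero

universe w u₁ u₂

/-- the local theorem for one form -/
theorem hloc_one {k : ℕ} (hk : 1 ≤ k) {n : ℕ} (hn : n = 2 * k + 2) (M : Type u₂) [Field M]
    [CharZero M] (Y : DData (Option (MIdx (n + 1) 1 fun _ => 3 * k + 3)) Empty M)
    (p : Fin (n + 1) → M) (l : Fin (n + 1)) (hpl : p l = 1)
    (hF : ∀ f, Fval (3 * k + 3) (mA (base Y) f) p = 0) (hEv : Ev Y p ≠ 0) :
    (∃ (c e : ℕ) (J : M), 0 < e ∧ J ≠ 0 ∧ LocalBound Y p c e J) ∨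
      (2 ≤ k ∧ MOnLine (fun _ => 3 * k + 3) (mA (base Y)) p) := by
  by_cases hline : MOnLine (fun _ => 3 * k + 3) (mA (base Y)) p
  · right
    refine ⟨?_, hline⟩
    by_contra hk2
    refine not_mOnLine (X := base Y) (p := p) (q := 1) ?_ hline
    simp only [Finset.univ_unique, Finset.sum_const, Finset.card_singleton, smul_eq_mul]
    omega
  left
  by_contra hcon
  refine hborder_false (Y := Y) (p := p) (l := l) hk (by omega) rfl hF hpl hEv ?_ hline
  intro c e J he hJ hB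
  exact hcon ⟨c, e, J, he, hJ, hB⟩

/-- the border for one form -/
theorem poly_one {κ : Type u₁} {K : Type u₂} [Field κ] [IsAlgClosed κ] [CharZero κ] [Field K]
    [CharZero K] [Algebra κ K] {t : K} (ht : Transcendental κ t)
    [FiniteDimensional (IntermediateField.adjoin κ {t}) K] {n k : ℕ} (hk : 1 ≤ k)
    (hn : n = 2 * k + 2) (F : Fin 1 → MvPolynomial (Fin (n + 1)) K)
    (hF : ∀ i, (F i).IsHomogeneous (3 * k + 3))
    (hgen : AlgebraicIndependent ℚ
      (fun θ : Σ _ : Fin 1, {I : Fin (n + 1) →₀ ℕ // I.degree = 3 * k + 3} =>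
        (F θ.1).coeff θ.2.1)) :
    ∃ C : ℕ, ∀ (L : Type w) [Field L] [Algebra K L] [FiniteDimensional K L] [Algebra κ L]
      [IsScalarTower κ K L] (x : Fin (n + 1) → L), x ≠ 0 →
      (1 : Cardinal) ≤ Algebra.trdeg (coefField F) (pointField (coefField F) x) →
      (∀ i, MvPolynomial.aeval x (F i) = 0) →
      height κ x ≤ C * ((ramDeg κ L K : ℤ) + Module.finrank K L) ∨
      (2 ≤ k ∧ ∃ y : Fin (n + 1) → L, LinearIndependent L ![x, y] ∧
          (∀ i, ∀ u v : L, MvPolynomial.aeval (fun j => u * x j + v * y j) (F i) = 0)) :=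
  poly_V.{w} ht (fun _ => 3 * k + 3) F hF hgen fun M _ _ Y p l hpl hF' hEv =>
    hloc_one hk hn M Y p l hpl hF' hEv

end Pool.Agent.Lib.MP_44a246_ntV
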