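import Mathlib
import Pool.Agent.Lib.MP_44a246_ntV.VPoly
import Pool.Agent.Lib.MP_44a246_ntH.QF2

/-!
The border for several forms: points with a derivation killing the coefficients but not the point.
-/

namespace Pool.Agent.Lib.MP_44a246_ntV

open Pool.Agent.Lib.MP_e52354_nt Pool.Agent.Lib.MP_e52354_ntP Pool.Agent.Lib.MP_e52354_ntG
open Pool.Agent.Lib.MP_e52354_ntW Pool.Agent.Lib.MP_e52354_ntI
open Pool.Agent.Lib.MP_44a246_nt Pool.Agent.Lib.MP_44a246_ntT Pool.Agent.Lib.MP_44a246_ntL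
open Pool.Agent.Lib.MP_44a246_ntB Pool.Agent.Lib.MP_44a246_ntH
open WithZero

universe w u₁ u₂

/-- the local theorem for several forms -/
theorem hloc_Q {k : ℕ} (hk : 1 ≤ k) {n q : ℕ} {d : Fin q → ℕ} (hn : n = q + 2 * k + 1)
    (hd2 : ∀ j, 2 ≤ d j) (hd : ∑ j, d j = 3 * k + 2 + q) (M : Type u₂) [Field M]
    [CharZero M] (Y : DData (Option (MIdx (n + 1) q d)) Empty M)
    (p : Fin (n + 1) → M) (l : Fin (n + 1)) (hpl : p l = 1)
    (hF : ∀ f, Fval (d f) (mA (base Y) f) p = 0) (hEv : Ev Y p ≠ 0) :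
    (∃ (c e : ℕ) (J : M), 0 < e ∧ J ≠ 0 ∧ LocalBound Y p c e J) ∨
      (True ∧ MOnLine d (mA (base Y)) p) := by
  by_cases hline : MOnLine d (mA (base Y)) p
  · exact Or.inr ⟨trivial, hline⟩
  left
  by_contra hcon
  refine hborder_falseQ (Y := Y) (p := p) (l := l) hk (by omega) hd2 hd hF hpl hEv ?_ hline
  intro c e J he hJ hB
  exact hcon ⟨c, e, J, he, hJ, hB⟩

/-- the border for several forms -/
theorem poly_Q {κ : Type u₁} {K : Type u₂} [Field κ] [IsAlgClosed κ] [CharZero κ] [Field K]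
    [CharZero K] [Algebra κ K] {t : K} (ht : Transcendental κ t)
    [FiniteDimensional (IntermediateField.adjoin κ {t}) K] {n q k : ℕ} (hk : 1 ≤ k)
    (d : Fin q → ℕ) (hn : n = q + 2 * k + 1) (hd2 : ∀ j, 2 ≤ d j)
    (hd : ∑ j, d j = 3 * k + 2 + q) (F : Fin q → MvPolynomial (Fin (n + 1)) K)
    (hF : ∀ i, (F i).IsHomogeneous (d i))
    (hgen : AlgebraicIndependent ℚ
      (fun θ : Σ i, {I : Fin (n + 1) →₀ ℕ // I.degree = d i} => (F θ.1).coeff θ.2.1)) :
    ∃ C : ℕ, ∀ (L : Type w) [Field L] [Algebra K L] [FiniteDimensional K L] [Algebra κ L]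
      [IsScalarTower κ K L] (x : Fin (n + 1) → L), x ≠ 0 →
      (1 : Cardinal) ≤ Algebra.trdeg (coefField F) (pointField (coefField F) x) →
      (∀ i, MvPolynomial.aeval x (F i) = 0) →
      height κ x ≤ C * ((ramDeg κ L K : ℤ) + Module.finrank K L) ∨
      (True ∧ ∃ y : Fin (n + 1) → L, LinearIndependent L ![x, y] ∧
          (∀ i, ∀ u v : L, MvPolynomial.aeval (fun j => u * x j + v * y j) (F i) = 0)) :=
  poly_V.{w} ht d F hF hgen fun M _ _ Y p l hpl hF' hEv =>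
    hloc_Q hk hn hd2 hd M Y p l hpl hF' hEv

/-- the border for several forms, in terms of the dimension and the degrees only -/
theorem poly_bd {κ : Type u₁} {K : Type u₂} [Field κ] [IsAlgClosed κ] [CharZero κ] [Field K]
    [CharZero K] [Algebra κ K] {t : K} (ht : Transcendental κ t)
    [FiniteDimensional (IntermediateField.adjoin κ {t}) K] {n q : ℕ}
    (d : Fin q → ℕ) (F : Fin q → MvPolynomial (Fin (n + 1)) K)
    (hF : ∀ i, (F i).IsHomogeneous (d i))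
    (hgen : AlgebraicIndependent ℚ
      (fun θ : Σ i, {I : Fin (n + 1) →₀ ℕ // I.degree = d i} => (F θ.1).coeff θ.2.1)) :
    ∃ C : ℕ, ∀ (L : Type w) [Field L] [Algebra K L] [FiniteDimensional K L] [Algebra κ L]
      [IsScalarTower κ K L] (x : Fin (n + 1) → L), x ≠ 0 →
      (1 : Cardinal) ≤ Algebra.trdeg (coefField F) (pointField (coefField F) x) →
      n + 2 ≤ ∑ i, d i → (∀ i, 2 ≤ d i) →
      (n : ℤ) - q = 2 * (∑ i, (d i : ℤ) - (n + 1)) + 1 →
      (∀ i, MvPolynomial.aeval x (F i) = 0) →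
      height κ x ≤ C * ((ramDeg κ L K : ℤ) + Module.finrank K L) ∨
      ∃ y : Fin (n + 1) → L, LinearIndependent L ![x, y] ∧
          (∀ i, ∀ u v : L, MvPolynomial.aeval (fun j => u * x j + v * y j) (F i) = 0) := by
  by_cases hyp : n + 2 ≤ ∑ i, d i ∧ (∀ i, 2 ≤ d i) ∧
    (n : ℤ) - q = 2 * (∑ i, (d i : ℤ) - (n + 1)) + 1
  · obtain ⟨h1, h2, h3⟩ := hyp
    obtain ⟨k, hk⟩ : ∃ k, ∑ i, d i = n + 1 + k := ⟨∑ i, d i - (n + 1), by omega⟩
    have h4 : (∑ i, (d i : ℤ)) = n + 1 + k := by exact_mod_cast hk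
    rw [h4] at h3
    obtain ⟨C, hC⟩ := poly_Q.{w} ht (k := k) (by omega) d (by omega) h2 (by omega) F hF hgen
    refine ⟨C, ?_⟩
    intro L _ _ _ _ _ x hx hτ _ _ _ h0
    rcases hC L x hx hτ h0 with h | ⟨-, h⟩
    · exact Or.inl h
    · exact Or.inr h
  · refine ⟨0, ?_⟩
    intro L _ _ _ _ _ x hx hτ h1 h2 h3
    exact absurd ⟨h1, h2, h3⟩ hyp

end Pool.Agent.Lib.MP_44a246_ntV
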